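import Pool.Agent.Helper94.EC.Bounds
import Pool.Agent.Helper51.EC.Chart
import Pool.Agent.Helper16.EC.CertAlg

/-!
# MP_0db605_an, piece EC-T4d : the certificates are positive for all pairs of planes
-/

namespace EC

open Matrix

namespace AP

/-! ### Frobenius norm -/

/-- squared Frobenius norm -/
def fsq {m n : Type*} [Fintype m] [Fintype n] (A : Matrix m n ℝ) : ℝ := ∑ i, ∑ j, A i j ^ 2

theorem fsq_nonneg {m n : Type*} [Fintype m] [Fintype n] (A : Matrix m n ℝ) : 0 ≤ fsq A :=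
  Finset.sum_nonneg fun i _ => Finset.sum_nonneg fun j _ => sq_nonneg (A i j)

theorem fsq_transpose {m n : Type*} [Fintype m] [Fintype n] (A : Matrix m n ℝ) :
    fsq Aᵀ = fsq A := by
  unfold fsq
  rw [Finset.sum_comm]
  rfl

theorem fsq_neg {m n : Type*} [Fintype m] [Fintype n] (A : Matrix m n ℝ) :
    fsq (-A) = fsq A := by
  unfold fsq
  simp

theorem fsq_smul {m n : Type*} [Fintype m] [Fintype n] (c : ℝ) (A : Matrix m n ℝ) :
    fsq (c • A) = c ^ 2 * fsq A := by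
  unfold fsq
  simp only [Matrix.smul_apply, smul_eq_mul, mul_pow, Finset.mul_sum]

theorem fsq_add_le {m n : Type*} [Fintype m] [Fintype n] (A B : Matrix m n ℝ) :
    fsq (A + B) ≤ 2 * fsq A + 2 * fsq B := by
  unfold fsq
  rw [Finset.mul_sum, Finset.mul_sum, ← Finset.sum_add_distrib]
  refine Finset.sum_le_sum fun i _ => ?_
  rw [Finset.mul_sum, Finset.mul_sum, ← Finset.sum_add_distrib]
  refine Finset.sum_le_sum fun j _ => ?_
  rw [Matrix.add_apply]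
  nlinarith [sq_nonneg (A i j - B i j)]

theorem entry_sq_le_fsq {m n : Type*} [Fintype m] [Fintype n] (A : Matrix m n ℝ) (i : m) (j : n) :
    A i j ^ 2 ≤ fsq A := by
  unfold fsq
  refine le_trans ?_ (Finset.single_le_sum (f := fun i => ∑ j, A i j ^ 2)
    (fun i _ => Finset.sum_nonneg fun j _ => sq_nonneg (A i j)) (Finset.mem_univ i))
  exact Finset.single_le_sum (f := fun j => A i j ^ 2) (fun j _ => sq_nonneg (A i j))
    (Finset.mem_univ j)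

theorem fsq_eq_trace {m n : Type*} [Fintype m] [Fintype n] (A : Matrix m n ℝ) :
    fsq A = trace (Aᵀ * A) := by
  unfold fsq
  rw [Finset.sum_comm]
  simp only [trace, diag_apply, mul_apply, transpose_apply, sq]

theorem trace_mul_sq_le {m n : Type*} [Fintype m] [Fintype n] (A : Matrix m n ℝ)
    (B : Matrix n m ℝ) : trace (A * B) ^ 2 ≤ fsq A * fsq B := by
  have h1 : trace (A * B) = ∑ p : m × n, A p.1 p.2 * B p.2 p.1 := by
    rw [Fintype.sum_prod_type]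
    simp only [trace, diag_apply, mul_apply]
  have h2 : fsq A = ∑ p : m × n, A p.1 p.2 ^ 2 := by
    rw [Fintype.sum_prod_type]; rfl
  have h3 : fsq B = ∑ p : m × n, B p.2 p.1 ^ 2 := by
    rw [Fintype.sum_prod_type]
    unfold fsq
    rw [Finset.sum_comm]
  rw [h1, h2, h3]
  exact Finset.sum_mul_sq_le_sq_mul_sq _ _ _

theorem fsq_mul_le {m n l : Type*} [Fintype m] [Fintype n] [Fintype l] (A : Matrix m n ℝ)
    (B : Matrix n l ℝ) : fsq (A * B) ≤ fsq A * fsq B := by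
  have h3 : fsq B = ∑ k, ∑ j, B j k ^ 2 := by
    unfold fsq
    rw [Finset.sum_comm]
  rw [h3]
  unfold fsq
  rw [Finset.sum_mul]
  refine Finset.sum_le_sum fun i _ => ?_
  rw [Finset.mul_sum]
  refine Finset.sum_le_sum fun k _ => ?_
  rw [mul_apply]
  exact Finset.sum_mul_sq_le_sq_mul_sq _ _ _

theorem abs_trace_mul_le {m n : Type*} [Fintype m] [Fintype n] (A : Matrix m n ℝ)
    (B : Matrix n m ℝ) {a b : ℝ} (ha : 0 ≤ a) (hb : 0 ≤ b) (hA : fsq A ≤ a ^ 2)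
    (hB : fsq B ≤ b ^ 2) : |trace (A * B)| ≤ a * b := by
  refine abs_le_of_sq_le_sq ?_ (mul_nonneg ha hb)
  refine (trace_mul_sq_le A B).trans ?_
  rw [mul_pow]
  exact mul_le_mul hA hB (fsq_nonneg B) (sq_nonneg a)

/-! ### 2 x 2 matrices and stacks -/

theorem fsq_two (A : M2) : fsq A = A 0 0 ^ 2 + A 0 1 ^ 2 + (A 1 0 ^ 2 + A 1 1 ^ 2) := by
  simp [fsq, Fin.sum_univ_two]

theorem fsq_mat (u y w z : ℝ) : fsq (mat u y w z) = 2 * (u ^ 2 + y ^ 2 + w ^ 2 + z ^ 2) := by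
  rw [fsq_two]
  simp [mat]
  ring

theorem fsq_stack (A B : M2) : fsq (stack A B) = fsq A + fsq B := by
  rw [fsq_two, fsq_two]
  simp [fsq, stack, Fin.sum_univ_four, Fin.sum_univ_two]
  ring

theorem mat_coord (X : M2) : mat (cu X) (cy X) (cw X) (cz X) = X := by
  ext i j
  fin_cases i <;> fin_cases j <;> simp [mat, cu, cy, cw, cz] <;> ring

theorem smul_mat (c u y w z : ℝ) : c • mat u y w z = mat (c * u) (c * y) (c * w) (c * z) := by
  ext i j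
  fin_cases i <;> fin_cases j <;> simp [mat] <;> ring

/-! ### Planes -/

theorem Gr_trace {T : M4} (hT : T ∈ Gr 4 2) : trace T = 2 := by
  obtain ⟨W, h1, h2⟩ := exists_frame hT
  rw [← h2, trace_mul_comm, h1]
  simp

theorem Gr_fsq {T : M4} (hT : T ∈ Gr 4 2) : fsq T = 2 := by
  rw [fsq_eq_trace, hT.1, hT.2.1, Gr_trace hT]

theorem Gr_trace_mul {T T' : M4} (hT : T ∈ Gr 4 2) (hT' : T' ∈ Gr 4 2) :
    trace ((1 - T) * T') = fsq (T' - T) / 2 := by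
  have h1 : fsq (T' - T) = trace ((T' - T)ᵀ * (T' - T)) := fsq_eq_trace _
  have h2 : (T' - T)ᵀ * (T' - T) = T' - T' * T - T * T' + T := by
    rw [transpose_sub, hT.1, hT'.1, sub_mul, mul_sub, mul_sub, hT.2.1, hT'.2.1]
    abel
  have h3 : (1 - T) * T' = T' - T * T' := by rw [sub_mul, one_mul]
  rw [h1, h2, h3, trace_add, trace_sub, trace_sub, trace_sub, trace_mul_comm T' T, Gr_trace hT,
    Gr_trace hT']
  ring

theorem eq_Pm_facts {T : M4} (hT : T ∈ Gr 4 2) (h : (blk11 T).det ≠ 0) :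
    T * stack 1 (Xof T) = stack 1 (Xof T) ∧ T * stack (-(Xof T)ᵀ) 1 = 0 := by
  have hP := eq_Pm_of_mem_Gr hT h
  set X := Xof T with hX
  have hd : (1 + Xᵀ * X).det ≠ 0 := by
    intro h0
    have := det_blk11_Pm X
    rw [← hP, h0, _root_.inv_zero] at this
    exact h this
  have hVV : (stack 1 X)ᵀ * stack 1 X = 1 + Xᵀ * X := by
    rw [stack_transpose_mul]; simp
  have hVU : (stack 1 X)ᵀ * stack (-Xᵀ) 1 = 0 := by
    rw [stack_transpose_mul]; simp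
  have hP' : T = stack 1 X * ((stack 1 X)ᵀ * stack 1 X)⁻¹ * (stack 1 X)ᵀ := hP
  constructor
  · conv_lhs => rw [hP']
    rw [Matrix.mul_assoc, Matrix.mul_assoc, Matrix.nonsing_inv_mul, Matrix.mul_one]
    rw [hVV]
    exact isUnit_iff_ne_zero.2 hd
  · conv_lhs => rw [hP']
    rw [Matrix.mul_assoc, hVU, Matrix.mul_zero]

/-- the deviation of the Gauss map from the projection -/
theorem Nof_facts {ε K : ℝ} {T : M4} (hT : T ∈ Gr 4 2) :
    ∃ N : M4, Aof ε K T = T + N ∧ T * N = 0 ∧ N * T = N ∧ trace N = 0 ∧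
      (N = 0 ∨ (1 / 2 < (blk11 T).det ∧
        N = stack (-(Xof T)ᵀ) 1 * Hm ε K (Xof T) * (stack 1 (Xof T))ᵀ)) := by
  by_cases h : 1 / 2 < (blk11 T).det
  · have hne : (blk11 T).det ≠ 0 := ne_of_gt (by linarith)
    obtain ⟨h1, h2⟩ := eq_Pm_facts hT hne
    refine ⟨stack (-(Xof T)ᵀ) 1 * Hm ε K (Xof T) * (stack 1 (Xof T))ᵀ, ?_, ?_, ?_, ?_, ?_⟩
    · rw [Aof, if_pos h]
    · rw [← Matrix.mul_assoc, ← Matrix.mul_assoc, h2]; simp
    · rw [Matrix.mul_assoc]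
      congr 1
      rw [← hT.1, ← transpose_mul, hT.1, h1]
    · rw [trace_mul_comm, ← Matrix.mul_assoc, stack_transpose_mul]
      simp
    · right; exact ⟨h, rfl⟩
  · refine ⟨0, ?_, by simp, by simp, by simp, Or.inl rfl⟩
    rw [Aof, if_neg h, add_zero]

/-- the support of the perturbation -/
def InSupp (ε K : ℝ) (T : M4) : Prop := 1 / 2 < (blk11 T).det ∧ 0 < thetaM ε K (Xof T)

theorem pos_nonneg (x : ℝ) : 0 ≤ pos x := le_max_right _ _

theorem theta_nonneg (K u y w z : ℝ) : 0 ≤ theta K u y w z := pos_nonneg _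

theorem Hm_eq_zero {ε K : ℝ} {X : M2} (h : thetaM ε K X = 0) : Hm ε K X = 0 := by
  unfold thetaM at h
  unfold Hm HP HQ HR HS eta tau
  rw [h]
  ext i j
  fin_cases i <;> fin_cases j <;> simp [mat]

theorem Aof_not_supp {ε K : ℝ} {T : M4} (h : ¬ InSupp ε K T) : Aof ε K T = T := by
  by_cases h1 : 1 / 2 < (blk11 T).det
  · have h2 : thetaM ε K (Xof T) = 0 := by
      have h3 : ¬ 0 < thetaM ε K (Xof T) := fun h4 => h ⟨h1, h4⟩
      exact le_antisymm (not_lt.1 h3) (theta_nonneg _ _ _ _ _)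
    rw [Aof, if_pos h1, Hm_eq_zero h2]
    simp
  · rw [Aof, if_neg h1]

theorem Zof_not_supp {ε K : ℝ} {T : M4} (h : ¬ InSupp ε K T) : Zof ε K T = 1 - Aof ε K T := by
  unfold InSupp at h
  rw [Zof, if_neg h]

theorem abs_lt_of_k2 {u K : ℝ} (hK : 0 < K) (h : k2 u ^ 2 < K ^ 2) : |u| < K + 2 := by
  have h1 := abs_lt_of_sq_lt_sq h hK.le
  rw [k2, pos, pos] at h1
  rw [abs_lt] at h1 ⊢
  rcases le_total (u - 2) 0 with h2 | h2 <;> rcases le_total (-u - 2) 0 with h3 | h3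
  · constructor <;> linarith
  · rw [max_eq_right h2, max_eq_left h3] at h1
    constructor <;> linarith [h1.1, h1.2]
  · rw [max_eq_left h2, max_eq_right h3] at h1
    constructor <;> linarith [h1.1, h1.2]
  · exfalso; linarith

theorem abs_lt_of_k1 {u K : ℝ} (hK : 0 < K) (h : k1 u ^ 2 < K ^ 2) : |u| < K + 1 := by
  have h1 := abs_lt_of_sq_lt_sq h hK.le
  rw [k1, pos, pos] at h1
  rw [abs_lt] at h1 ⊢
  rcases le_total (u - 1) 0 with h2 | h2 <;> rcases le_total (-u - 1) 0 with h3 | h3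
  · constructor <;> linarith
  · rw [max_eq_right h2, max_eq_left h3] at h1
    constructor <;> linarith [h1.1, h1.2]
  · rw [max_eq_left h2, max_eq_right h3] at h1
    constructor <;> linarith [h1.1, h1.2]
  · exfalso; linarith

theorem coord_bounds {K u y w z : ℝ} (hK : 0 < K) (h : 0 < theta K u y w z) :
    |u| ≤ K + 2 ∧ |y| ≤ K + 2 ∧ |w| ≤ K + 2 ∧ |z| ≤ K + 2 := by
  have h1 : NN u y w z < K ^ 2 := by
    rw [theta, pos] at h
    rcases lt_max_iff.1 h with h2 | h2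
    · have h3 : NN u y w z / K ^ 2 < 1 := by linarith
      rwa [div_lt_one (by positivity)] at h3
    · exact absurd h2 (lt_irrefl _)
  rw [NN] at h1
  have a1 := sq_nonneg (k2 u)
  have a2 := sq_nonneg (k1 y)
  have a3 := sq_nonneg w
  have a4 := sq_nonneg z
  refine ⟨(abs_lt_of_k2 hK (by linarith)).le, ?_, ?_, ?_⟩
  · linarith [abs_lt_of_k1 hK (show k1 y ^ 2 < K ^ 2 by linarith)]
  · linarith [abs_lt_of_sq_lt_sq (show w ^ 2 < K ^ 2 by linarith) hK.le]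
  · linarith [abs_lt_of_sq_lt_sq (show z ^ 2 < K ^ 2 by linarith) hK.le]

/-! ### sizes -/

theorem small_bound {ε K : ℝ} (hK : 10 ^ 10 ≤ K)
    (hh : 10 ^ 60 * K ^ 40 * ε ^ 2 ≤ 1) : (K * ε) ^ 2 ≤ 1 / 10 ^ 60 := by
  have h1 : (1 : ℝ) ≤ K := by linarith
  have h2 : K ^ 2 ≤ K ^ 40 := pow_le_pow_right₀ h1 (by norm_num)
  have h3 : 10 ^ 60 * (K ^ 2 * ε ^ 2) ≤ 10 ^ 60 * K ^ 40 * ε ^ 2 := by
    have := mul_le_mul_of_nonneg_right h2 (sq_nonneg ε)
    linarith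
  rw [mul_pow]
  rw [le_div_iff₀ (by positivity)]
  linarith

theorem Keps_le {ε K : ℝ} (hK : 10 ^ 10 ≤ K)
    (hh : 10 ^ 60 * K ^ 40 * ε ^ 2 ≤ 1) : K * ε ≤ 1 / 10 ^ 30 := by
  have h := small_bound hK hh
  have h1 : (0 : ℝ) ≤ 1 / 10 ^ 30 := by positivity
  refine le_of_sq_le_sq ?_ h1
  refine h.trans (le_of_eq ?_)
  norm_num

/-- coordinates of `Xof T` on the support -/
theorem supp_coord {ε K : ℝ} {T : M4} (hK : 10 ^ 10 ≤ K) (h : InSupp ε K T) :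
    |cu (Xof T) / ε| ≤ K + 2 ∧ |cy (Xof T) / ε| ≤ K + 2 ∧ |cw (Xof T) / ε| ≤ K + 2 ∧
      |cz (Xof T) / ε| ≤ K + 2 :=
  coord_bounds (by linarith) h.2

theorem sq_sum_le {a b c d M : ℝ} (ha : |a| ≤ M) (hb : |b| ≤ M) (hc : |c| ≤ M)
    (hd : |d| ≤ M) :
    a ^ 2 + b ^ 2 + c ^ 2 + d ^ 2 ≤ 4 * M ^ 2 := by
  have h1 : a ^ 2 ≤ M ^ 2 := sq_le_sq' (by linarith [abs_le.1 ha]) (abs_le.1 ha).2
  have h2 : b ^ 2 ≤ M ^ 2 := sq_le_sq' (by linarith [abs_le.1 hb]) (abs_le.1 hb).2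
  have h3 : c ^ 2 ≤ M ^ 2 := sq_le_sq' (by linarith [abs_le.1 hc]) (abs_le.1 hc).2
  have h4 : d ^ 2 ≤ M ^ 2 := sq_le_sq' (by linarith [abs_le.1 hd]) (abs_le.1 hd).2
  linarith

theorem X_eq {ε : ℝ} (hε : 0 < ε) (X : M2) :
    X = ε • mat (cu X / ε) (cy X / ε) (cw X / ε) (cz X / ε) := by
  rw [smul_mat, mul_div_cancel₀ _ hε.ne', mul_div_cancel₀ _ hε.ne', mul_div_cancel₀ _ hε.ne',
    mul_div_cancel₀ _ hε.ne', mat_coord]

theorem fsq_X_le {ε K : ℝ} {T : M4} (hε : 0 < ε) (hK : 10 ^ 10 ≤ K)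
    (hh : 10 ^ 60 * K ^ 40 * ε ^ 2 ≤ 1) (h : InSupp ε K T) : fsq (Xof T) ≤ 1 / 10 ^ 50 := by
  obtain ⟨h1, h2, h3, h4⟩ := supp_coord hK h
  have h5 := sq_sum_le h1 h2 h3 h4
  rw [X_eq hε (Xof T), fsq_smul, fsq_mat]
  have h6 := small_bound hK hh
  have h7 : (K + 2) ^ 2 ≤ 4 * K ^ 2 := by nlinarith
  have h8 : ε ^ 2 * (2 * ((cu (Xof T) / ε) ^ 2 + (cy (Xof T) / ε) ^ 2 + (cw (Xof T) / ε) ^ 2
      + (cz (Xof T) / ε) ^ 2)) ≤ ε ^ 2 * (32 * K ^ 2) :=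
    mul_le_mul_of_nonneg_left (by linarith) (sq_nonneg ε)
  refine h8.trans ?_
  have h9 : ε ^ 2 * (32 * K ^ 2) = 32 * (K * ε) ^ 2 := by ring
  rw [h9]
  refine (mul_le_mul_of_nonneg_left h6 (by norm_num)).trans ?_
  norm_num

theorem fsq_one2 : fsq (1 : M2) = 2 := by
  rw [fsq_two]; norm_num

theorem fsq_Hm_le {ε K : ℝ} (hε : 0 < ε) (hK : 10 ^ 10 ≤ K)
    (hh : 10 ^ 60 * K ^ 40 * ε ^ 2 ≤ 1) (X : M2) : fsq (Hm ε K X) ≤ 80000 * ε ^ 2 := by
  rw [Hm, fsq_smul, fsq_mat]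
  have h1 := H_bound (u := cu X / ε) (y := cy X / ε) (w := cw X / ε) (z := cz X / ε) hK
    (sq_pos_of_pos hε) hh
  have h2 := mul_le_mul_of_nonneg_left h1 (sq_nonneg ε)
  linarith

theorem fsq_Gm_le {ε K : ℝ} {T : M4} (hε : 0 < ε) (hK : 10 ^ 10 ≤ K)
    (hh : 10 ^ 60 * K ^ 40 * ε ^ 2 ≤ 1) (h : InSupp ε K T) :
    fsq (Gm ε K (Xof T)) ≤ 1 / 10 ^ 50 := by
  obtain ⟨h1, h2, h3, h4⟩ := supp_coord hK h
  set u := cu (Xof T) / ε with hu
  set y := cy (Xof T) / ε with hy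
  set w := cw (Xof T) / ε with hw
  set z := cz (Xof T) / ε with hz
  have hK1 : (1 : ℝ) ≤ K := by linarith
  have hKK : K + 2 ≤ 2 * K := by linarith
  obtain ⟨g1, g2, g3, g4⟩ := Ga_close hK (sq_pos_of_pos hε) hh (h1.trans hKK) (h2.trans hKK)
    (h3.trans hKK) (h4.trans hKK)
  have hH := H_bound (u := u) (y := y) (w := w) (z := z) hK (sq_pos_of_pos hε) hh
  have hK20 : (1 : ℝ) ≤ K ^ 20 := one_le_pow₀ hK1
  have key : ∀ {a g H : ℝ}, |a| ≤ K + 2 → |g - a| ≤ |a| / K ^ 20 → H ^ 2 ≤ 200 ^ 2 →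
      |g + H| ≤ 4 * K := by
    intro a g H ha hg hH
    have e1 : |a| / K ^ 20 ≤ |a| := div_le_self (abs_nonneg a) hK20
    have e2 : |H| ≤ 200 := abs_le_of_sq_le_sq hH (by norm_num)
    have e3 : |g + H| ≤ |g - a| + |a| + |H| := by
      calc |g + H| = |(g - a) + a + H| := by ring_nf
        _ ≤ |(g - a) + a| + |H| := abs_add_le _ _
        _ ≤ |g - a| + |a| + |H| := by linarith [abs_add_le (g - a) a]
    linarith
  have q1 := sq_nonneg (HP (ε ^ 2) K u y w z)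
  have q2 := sq_nonneg (HQ (ε ^ 2) K u y w z)
  have q3 := sq_nonneg (HR (ε ^ 2) K u y w z)
  have q4 := sq_nonneg (HS (ε ^ 2) K u y w z)
  have k1 := key h1 g1 (show HP (ε ^ 2) K u y w z ^ 2 ≤ 200 ^ 2 by linarith)
  have k2 := key h2 g2 (show HQ (ε ^ 2) K u y w z ^ 2 ≤ 200 ^ 2 by linarith)
  have k3 := key h3 g3 (show HR (ε ^ 2) K u y w z ^ 2 ≤ 200 ^ 2 by linarith)
  have k4 := key h4 g4 (show HS (ε ^ 2) K u y w z ^ 2 ≤ 200 ^ 2 by linarith)
  have h5 := sq_sum_le k1 k2 k3 k4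
  rw [Gm, fsq_smul, fsq_mat]
  have h6 := small_bound hK hh
  have h8 : ε ^ 2 * (2 * (GP (ε ^ 2) K u y w z ^ 2 + GQ (ε ^ 2) K u y w z ^ 2
      + GR (ε ^ 2) K u y w z ^ 2 + GS (ε ^ 2) K u y w z ^ 2)) ≤ ε ^ 2 * (128 * K ^ 2) := by
    refine mul_le_mul_of_nonneg_left ?_ (sq_nonneg ε)
    unfold GP GQ GR GS
    linarith
  refine h8.trans ?_
  have h9 : ε ^ 2 * (128 * K ^ 2) = 128 * (K * ε) ^ 2 := by ring
  rw [h9]
  refine (mul_le_mul_of_nonneg_left h6 (by norm_num)).trans ?_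
  norm_num

/-- the deviation of the Gauss map from the projection: size -/
theorem Nof_bound {ε K : ℝ} {T : M4} (hε : 0 < ε) (hK : 10 ^ 10 ≤ K)
    (hh : 10 ^ 60 * K ^ 40 * ε ^ 2 ≤ 1) (hT : T ∈ Gr 4 2) :
    ∃ N : M4, Aof ε K T = T + N ∧ T * N = 0 ∧ N * T = N ∧ trace N = 0 ∧
      fsq N ≤ (600 * ε) ^ 2 := by
  by_cases hs : InSupp ε K T
  · obtain ⟨N, h1, h2, h3, h4, h5⟩ := Nof_facts (ε := ε) (K := K) hT
    refine ⟨N, h1, h2, h3, h4, ?_⟩
    rcases h5 with h5 | ⟨_, h5⟩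
    · rw [h5]
      have : fsq (0 : M4) = 0 := by simp [fsq]
      rw [this]
      positivity
    · have hX := fsq_X_le hε hK hh hs
      have hH := fsq_Hm_le hε hK hh (Xof T)
      have hX0 := fsq_nonneg (Xof T)
      have hU : fsq (stack (-(Xof T)ᵀ) 1) ≤ 21 / 10 := by
        rw [fsq_stack, fsq_neg, fsq_transpose, fsq_one2]
        linarith
      have hV : fsq (stack 1 (Xof T))ᵀ ≤ 21 / 10 := by
        rw [fsq_transpose, fsq_stack, fsq_one2]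
        linarith
      rw [h5]
      calc fsq (stack (-(Xof T)ᵀ) 1 * Hm ε K (Xof T) * (stack 1 (Xof T))ᵀ)
          ≤ fsq (stack (-(Xof T)ᵀ) 1 * Hm ε K (Xof T)) * fsq (stack 1 (Xof T))ᵀ := fsq_mul_le _ _
        _ ≤ (fsq (stack (-(Xof T)ᵀ) 1) * fsq (Hm ε K (Xof T))) * (21 / 10) := by
            refine mul_le_mul (fsq_mul_le _ _) hV (fsq_nonneg _) ?_
            exact mul_nonneg (fsq_nonneg _) (fsq_nonneg _)
        _ ≤ (21 / 10 * (80000 * ε ^ 2)) * (21 / 10) := by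
            refine mul_le_mul_of_nonneg_right ?_ (by norm_num)
            exact mul_le_mul hU hH (fsq_nonneg _) (by norm_num)
        _ ≤ (600 * ε) ^ 2 := by nlinarith [sq_nonneg ε]
  · refine ⟨0, ?_, by simp, by simp, by simp, ?_⟩
    · rw [Aof_not_supp hs, add_zero]
    · have : fsq (0 : M4) = 0 := by simp [fsq]
      rw [this]
      positivity

theorem trace_formula {T T' N N' : M4} (hT : T ∈ Gr 4 2) (hT' : T' ∈ Gr 4 2)
    (h3 : N * T = N) (h4 : trace N = 0)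
    (h2' : T' * N' = 0) (h4' : trace N' = 0) :
    trace ((1 - (T + N)) * (T' + N')) =
      fsq (T' - T) / 2 - trace (N * (T' - T)) - trace ((T - T') * N') - trace (N * N') := by
  have e1 : (1 - (T + N)) * (T' + N') = (1 - T) * T' + (N' - T * N') - N * T' - N * N' := by
    noncomm_ring
  have e2 : N * (T' - T) = N * T' - N := by rw [mul_sub, h3]
  have e3 : (T - T') * N' = T * N' := by rw [sub_mul, h2', sub_zero]
  rw [e1, e2, e3, trace_sub, trace_sub, trace_add, trace_sub, trace_sub, Gr_trace_mul hT hT', h4,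
    h4']
  ring

/-- the twisting term -/
theorem twist_bound {ε K : ℝ} {T T' : M4} (hε : 0 < ε) (hK : 10 ^ 10 ≤ K)
    (hh : 10 ^ 60 * K ^ 40 * ε ^ 2 ≤ 1) (hT' : T' ∈ Gr 4 2) (hs : InSupp ε K T) :
    |trace ((stack (-(Xof T)ᵀ) 1 * matJ *
          (stack (-(Gm ε K (Xof T))ᵀ) (1 - Xof T * (Gm ε K (Xof T))ᵀ))ᵀ) * Aof ε K T')| ≤ 11 := by
  obtain ⟨N', h1, -, -, -, h5⟩ := Nof_bound hε hK hh hT'
  have hX := fsq_X_le hε hK hh hs
  have hG := fsq_Gm_le hε hK hh hs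
  have hX0 := fsq_nonneg (Xof T)
  have hG0 := fsq_nonneg (Gm ε K (Xof T))
  have hU : fsq (stack (-(Xof T)ᵀ) 1) ≤ 21 / 10 := by
    rw [fsq_stack, fsq_neg, fsq_transpose, fsq_one2]
    linarith
  have hJ : fsq matJ ≤ 2 := by
    rw [fsq_two]; simp [matJ]; norm_num
  have hXG : fsq (1 - Xof T * (Gm ε K (Xof T))ᵀ) ≤ 45 / 10 := by
    have e1 := fsq_add_le (1 : M2) (-(Xof T * (Gm ε K (Xof T))ᵀ))
    rw [← sub_eq_add_neg, fsq_neg, fsq_one2] at e1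
    have e2 := fsq_mul_le (Xof T) (Gm ε K (Xof T))ᵀ
    rw [fsq_transpose] at e2
    have e3 : fsq (Xof T) * fsq (Gm ε K (Xof T)) ≤ 1 / 10 ^ 50 * (1 / 10 ^ 50) :=
      mul_le_mul hX hG hG0 (by positivity)
    have e4 : (1 : ℝ) / 10 ^ 50 * (1 / 10 ^ 50) ≤ 1 / 10 := by norm_num
    linarith
  have hW : fsq (stack (-(Gm ε K (Xof T))ᵀ) (1 - Xof T * (Gm ε K (Xof T))ᵀ))ᵀ ≤ 5 := by
    rw [fsq_transpose, fsq_stack, fsq_neg, fsq_transpose]
    linarith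
  have hA : fsq (Aof ε K T') ≤ 5 := by
    rw [h1]
    have e1 := fsq_add_le T' N'
    rw [Gr_fsq hT'] at e1
    have e2 := small_bound hK hh
    have e3 : ε ^ 2 ≤ 1 / 10 ^ 60 := by
      have : ε ^ 2 ≤ (K * ε) ^ 2 := by
        rw [mul_pow]
        have : (1 : ℝ) ≤ K ^ 2 := one_le_pow₀ (by linarith)
        nlinarith [sq_nonneg ε]
      linarith
    nlinarith
  refine abs_le_of_sq_le_sq ?_ (by norm_num)
  refine (trace_mul_sq_le _ _).trans ?_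
  calc fsq (stack (-(Xof T)ᵀ) 1 * matJ *
          (stack (-(Gm ε K (Xof T))ᵀ) (1 - Xof T * (Gm ε K (Xof T))ᵀ))ᵀ) * fsq (Aof ε K T')
      ≤ (((21 / 10) * 2) * 5) * 5 := by
        refine mul_le_mul ?_ hA (fsq_nonneg _) (by norm_num)
        refine (fsq_mul_le _ _).trans ?_
        refine mul_le_mul ?_ hW (fsq_nonneg _) (by norm_num)
        refine (fsq_mul_le _ _).trans ?_
        exact mul_le_mul hU hJ (fsq_nonneg _) (by norm_num)
    _ ≤ 11 ^ 2 := by norm_num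

theorem mu_bounds (u p : ℝ) : 0 ≤ mu u p ∧ mu u p ≤ 7 / 2 := by
  unfold mu
  have h1 : 0 ≤ min (pos p) 2 := le_min (pos_nonneg p) (by norm_num)
  have h2 : min (pos p) 2 ≤ 2 := min_le_right _ _
  have h3 : 0 ≤ min (pos (-u)) 1 := le_min (pos_nonneg _) (by norm_num)
  have h4 : min (pos (-u)) 1 ≤ 1 := min_le_right _ _
  constructor <;> linarith

theorem mh_bounds (h K u y w z : ℝ) : 0 ≤ mh h K u y w z ∧ mh h K u y w z ≤ 7 / 2 := by
  unfold mh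
  split_ifs
  · exact mu_bounds _ _
  · norm_num

/-- far pairs -/
theorem cert_far {ε K : ℝ} (hε : 0 < ε) (hK : 10 ^ 10 ≤ K) (hh : 10 ^ 60 * K ^ 40 * ε ^ 2 ≤ 1)
    {T T' : M4} (hT : T ∈ Gr 4 2) (hT' : T' ∈ Gr 4 2)
    (hfar : (10 ^ 4 * ε) ^ 2 ≤ fsq (T' - T)) : 0 < trace (Zof ε K T * Aof ε K T') := by
  obtain ⟨N, h1, h2, h3, h4, h5⟩ := Nof_bound hε hK hh hT
  obtain ⟨N', h1', h2', h3', h4', h5'⟩ := Nof_bound hε hK hh hT'
  set D := Real.sqrt (fsq (T' - T)) with hD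
  have hD2 : fsq (T' - T) = D ^ 2 := (Real.sq_sqrt (fsq_nonneg _)).symm
  have hD0 : 0 ≤ D := Real.sqrt_nonneg _
  have hDε : 10 ^ 4 * ε ≤ D := by
    refine le_of_sq_le_sq ?_ hD0
    rw [← hD2]; exact hfar
  have hD2' : fsq (T - T') = D ^ 2 := by
    rw [← hD2, ← fsq_neg (T' - T), neg_sub]
  have e1 : |trace (N * (T' - T))| ≤ 600 * ε * D :=
    abs_trace_mul_le _ _ (by positivity) hD0 h5 hD2.le
  have e2 : |trace ((T - T') * N')| ≤ D * (600 * ε) :=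
    abs_trace_mul_le _ _ hD0 (by positivity) hD2'.le h5'
  have e3 : |trace (N * N')| ≤ 600 * ε * (600 * ε) :=
    abs_trace_mul_le _ _ (by positivity) (by positivity) h5 h5'
  have e4 := trace_formula hT hT' h3 h4 h2' h4'
  have e5 : 3000 * ε * D ≤ trace ((1 - Aof ε K T) * Aof ε K T') := by
    rw [h1, h1', e4, hD2]
    have f1 := (abs_le.1 e1).2
    have f2 := (abs_le.1 e2).2
    have f3 := (abs_le.1 e3).2
    nlinarith [mul_pos hε hε]
  have e6 : 0 < 3000 * ε * D - 50 * ε ^ 2 := by nlinarith [mul_pos hε hε]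
  by_cases hs : InSupp ε K T
  · have hs' : 1 / 2 < (blk11 T).det ∧ 0 < thetaM ε K (Xof T) := hs
    rw [Zof, if_pos hs', add_mul, trace_add, smul_mul_assoc, trace_smul, smul_eq_mul]
    have t1 := twist_bound hε hK hh hT' hs
    have t2 := mh_bounds (ε ^ 2) K (cu (Xof T) / ε) (cy (Xof T) / ε) (cw (Xof T) / ε)
      (cz (Xof T) / ε)
    set tw := trace ((stack (-(Xof T)ᵀ) 1 * matJ *
          (stack (-(Gm ε K (Xof T))ᵀ) (1 - Xof T * (Gm ε K (Xof T))ᵀ))ᵀ) * Aof ε K T') with htw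
    set m := mh (ε ^ 2) K (cu (Xof T) / ε) (cy (Xof T) / ε) (cw (Xof T) / ε)
      (cz (Xof T) / ε) with hm
    have t3 : -(50 * ε ^ 2) ≤ ε ^ 2 * m * tw := by
      have t4 : |ε ^ 2 * m * tw| ≤ 50 * ε ^ 2 := by
        rw [abs_mul, abs_of_nonneg (mul_nonneg (sq_nonneg ε) t2.1)]
        have : ε ^ 2 * m * |tw| ≤ ε ^ 2 * (7 / 2) * 11 :=
          mul_le_mul (mul_le_mul_of_nonneg_left t2.2 (sq_nonneg ε)) t1 (abs_nonneg _)
            (by positivity)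
        nlinarith [sq_nonneg ε]
      exact (abs_le.1 t4).1
    linarith
  · rw [Zof_not_supp hs]
    nlinarith [mul_pos hε hε]

/-! ### near pairs -/

theorem abs_entry_le {m n : Type*} [Fintype m] [Fintype n] {A : Matrix m n ℝ} {a : ℝ} (ha : 0 ≤ a)
    (hA : fsq A ≤ a ^ 2) (i : m) (j : n) : |A i j| ≤ a :=
  abs_le_of_sq_le_sq ((entry_sq_le_fsq A i j).trans hA) ha

/-- the upper left block is close to the identity -/
theorem blk_near_one {T : M4} {a : ℝ} (hT : T ∈ Gr 4 2) (h : (blk11 T).det ≠ 0) (ha : 0 ≤ a)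
    (hX : fsq (Xof T) ≤ a ^ 2) :
    |T 0 0 - 1| ≤ 3 * a ∧ |T 0 1| ≤ 3 * a ∧ |T 1 0| ≤ 3 * a ∧ |T 1 1 - 1| ≤ 3 * a := by
  obtain ⟨h1, -⟩ := eq_Pm_facts hT h
  set X := Xof T with hXd
  have hT2 : ∀ i j, |T i j| ≤ 3 / 2 := fun i j =>
    abs_entry_le (by norm_num) (by rw [Gr_fsq hT]; norm_num) i j
  have hXe : ∀ i j, |X i j| ≤ a := fun i j => abs_entry_le ha hX i j
  have e00 := congrFun (congrFun h1 0) 0
  have e01 := congrFun (congrFun h1 0) 1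
  have e10 := congrFun (congrFun h1 1) 0
  have e11 := congrFun (congrFun h1 1) 1
  simp [mul_apply, stack, Fin.sum_univ_four] at e00 e01 e10 e11
  have key : ∀ {p q r s : ℝ}, |p| ≤ 3 / 2 → |q| ≤ a → |r| ≤ 3 / 2 → |s| ≤ a →
      |p * q + r * s| ≤ 3 * a := by
    intro p q r s hp hq hr hs
    have f1 : |p * q| ≤ 3 / 2 * a := by
      rw [abs_mul]; exact mul_le_mul hp hq (abs_nonneg _) (by norm_num)
    have f2 : |r * s| ≤ 3 / 2 * a := by
      rw [abs_mul]; exact mul_le_mul hr hs (abs_nonneg _) (by norm_num)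
    have f3 := abs_add_le (p * q) (r * s)
    linarith
  refine ⟨?_, ?_, ?_, ?_⟩
  · have := key (hT2 0 2) (hXe 0 0) (hT2 0 3) (hXe 1 0)
    rw [show T 0 0 - 1 = -(T 0 2 * X 0 0 + T 0 3 * X 1 0) by linarith, abs_neg]
    exact this
  · have := key (hT2 0 2) (hXe 0 1) (hT2 0 3) (hXe 1 1)
    rw [show T 0 1 = -(T 0 2 * X 0 1 + T 0 3 * X 1 1) by linarith, abs_neg]
    exact this
  · have := key (hT2 1 2) (hXe 0 0) (hT2 1 3) (hXe 1 0)
    rw [show T 1 0 = -(T 1 2 * X 0 0 + T 1 3 * X 1 0) by linarith, abs_neg]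
    exact this
  · have := key (hT2 1 2) (hXe 0 1) (hT2 1 3) (hXe 1 1)
    rw [show T 1 1 - 1 = -(T 1 2 * X 0 1 + T 1 3 * X 1 1) by linarith, abs_neg]
    exact this

theorem det_blk11_eq (T : M4) : (blk11 T).det = T 0 0 * T 1 1 - T 0 1 * T 1 0 := by
  rw [det_fin_two]; rfl

theorem Xof_mul {T : M4} (h : (blk11 T).det ≠ 0) : Xof T * blk11 T = blk21 T := by
  rw [Xof, Matrix.mul_assoc, Matrix.nonsing_inv_mul, Matrix.mul_one]
  exact isUnit_iff_ne_zero.2 h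

theorem Xof_mul_entries {T : M4} (h : (blk11 T).det ≠ 0) :
    (Xof T 0 0 * T 0 0 + Xof T 0 1 * T 1 0 = T 2 0 ∧
      Xof T 0 0 * T 0 1 + Xof T 0 1 * T 1 1 = T 2 1) ∧
    (Xof T 1 0 * T 0 0 + Xof T 1 1 * T 1 0 = T 3 0 ∧
      Xof T 1 0 * T 0 1 + Xof T 1 1 * T 1 1 = T 3 1) := by
  have h1 := Xof_mul h
  have e00 := congrFun (congrFun h1 0) 0
  have e01 := congrFun (congrFun h1 0) 1
  have e10 := congrFun (congrFun h1 1) 0
  have e11 := congrFun (congrFun h1 1) 1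
  rw [mul_apply, Fin.sum_univ_two] at e00 e01 e10 e11
  exact ⟨⟨e00, e01⟩, ⟨e10, e11⟩⟩

/-- one row of the comparison of the slopes -/
theorem row_near {x0 x1 x0' x1' a b r t00 t01 t10 t11 t00' t01' t10' t11' c0 c1 c0' c1' : ℝ}
    (hb1 : b ≤ 1 / 100) (hr : 0 ≤ r) (ha1 : a ≤ 1 / 100)
    (h1 : x0 * t00 + x1 * t10 = c0) (h2 : x0 * t01 + x1 * t11 = c1)
    (h1' : x0' * t00' + x1' * t10' = c0') (h2' : x0' * t01' + x1' * t11' = c1')
    (hx0 : |x0| ≤ a) (hx1 : |x1| ≤ a)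
    (g00 : |t00' - t00| ≤ r) (g01 : |t01' - t01| ≤ r) (g10 : |t10' - t10| ≤ r)
    (g11 : |t11' - t11| ≤ r) (gc0 : |c0' - c0| ≤ r) (gc1 : |c1' - c1| ≤ r)
    (k00 : |t00' - 1| ≤ b) (k01 : |t01'| ≤ b) (k10 : |t10'| ≤ b) (k11 : |t11' - 1| ≤ b) :
    |x0' - x0| ≤ 3 * r ∧ |x1' - x1| ≤ 3 * r := by
  set R0 := c0' - c0 - (x0 * (t00' - t00) + x1 * (t10' - t10)) with hR0
  set R1 := c1' - c1 - (x0 * (t01' - t01) + x1 * (t11' - t11)) with hR1
  have pr : ∀ {p q : ℝ}, |p| ≤ a → |q| ≤ r → |p * q| ≤ 1 / 100 * r := by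
    intro p q hp hq
    rw [abs_mul]
    exact mul_le_mul (hp.trans ha1) hq (abs_nonneg _) (by norm_num)
  have bR0 : |R0| ≤ 11 / 10 * r := by
    have f1 := abs_le.1 (pr hx0 g00)
    have f2 := abs_le.1 (pr hx1 g10)
    have f3 := abs_le.1 gc0
    rw [abs_le]; constructor <;> linarith [f1.1, f1.2, f2.1, f2.2, f3.1, f3.2]
  have bR1 : |R1| ≤ 11 / 10 * r := by
    have f1 := abs_le.1 (pr hx0 g01)
    have f2 := abs_le.1 (pr hx1 g11)
    have f3 := abs_le.1 gc1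
    rw [abs_le]; constructor <;> linarith [f1.1, f1.2, f2.1, f2.2, f3.1, f3.2]
  have q0 : (x0' - x0) * t00' + (x1' - x1) * t10' = R0 := by
    rw [hR0, ← h1, ← h1']; ring
  have q1 : (x0' - x0) * t01' + (x1' - x1) * t11' = R1 := by
    rw [hR1, ← h2, ← h2']; ring
  have d0 : (x0' - x0) * (t00' * t11' - t01' * t10') = R0 * t11' - R1 * t10' := by
    linear_combination t11' * q0 - t10' * q1
  have d1 : (x1' - x1) * (t00' * t11' - t01' * t10') = R1 * t00' - R0 * t01' := by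
    linear_combination t00' * q1 - t01' * q0
  have l00 := abs_le.1 k00
  have l11 := abs_le.1 k11
  have l01 := abs_le.1 k01
  have l10 := abs_le.1 k10
  have m00 : |t00'| ≤ 101 / 100 := by rw [abs_le]; constructor <;> linarith [l00.1, l00.2]
  have m11 : |t11'| ≤ 101 / 100 := by rw [abs_le]; constructor <;> linarith [l11.1, l11.2]
  have m01 : |t01'| ≤ 1 / 100 := k01.trans hb1
  have m10 : |t10'| ≤ 1 / 100 := k10.trans hb1
  have hdet : 1 / 2 ≤ t00' * t11' - t01' * t10' := by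
    have e1 : (99 / 100) * (99 / 100) ≤ t00' * t11' :=
      mul_le_mul (by linarith [l00.1]) (by linarith [l11.1]) (by norm_num) (by linarith [l00.1])
    have e2 : |t01' * t10'| ≤ 1 / 100 * (1 / 100) := by
      rw [abs_mul]; exact mul_le_mul m01 m10 (abs_nonneg _) (by norm_num)
    have e3 := (abs_le.1 e2).2
    linarith
  have fin : ∀ {E S : ℝ}, E * (t00' * t11' - t01' * t10') = S → |S| ≤ 3 / 2 * r → |E| ≤ 3 * r := by
    intro E S hE hS
    have e1 : |E| * (1 / 2) ≤ |S| := by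
      rw [← hE, abs_mul, abs_of_nonneg (by linarith : 0 ≤ t00' * t11' - t01' * t10')]
      exact mul_le_mul_of_nonneg_left hdet (abs_nonneg _)
    linarith
  have mulb : ∀ {p q c : ℝ}, |p| ≤ 11 / 10 * r → |q| ≤ c → |p * q| ≤ 11 / 10 * r * c := by
    intro p q c hp hq
    rw [abs_mul]
    exact mul_le_mul hp hq (abs_nonneg _) (by positivity)
  constructor
  · refine fin d0 ?_
    have e1 := mulb bR0 m11
    have e2 := mulb bR1 m10
    have e3 := abs_sub (R0 * t11') (R1 * t10')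
    linarith
  · refine fin d1 ?_
    have e1 := mulb bR1 m00
    have e2 := mulb bR0 m01
    have e3 := abs_sub (R1 * t00') (R0 * t01')
    linarith

theorem coord_near {ε K p p' : ℝ} (hε : 0 < ε) (hK : 10 ^ 10 ≤ K) (h1 : |p / ε| ≤ K + 2)
    (h2 : |p' - p| ≤ 3 * (10 ^ 4 * ε)) : |p' / ε| ≤ 2 * K := by
  rw [abs_div, abs_of_pos hε, div_le_iff₀ hε] at h1 ⊢
  have e3 : 3 * (10 ^ 4 * ε) ≤ (K - 2) * ε := by
    have h3 : (3 * 10 ^ 4 : ℝ) ≤ K - 2 := by linarith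
    have h4 := mul_le_mul_of_nonneg_right h3 hε.le
    linarith
  have e4 : (K + 2) * ε + (K - 2) * ε = 2 * K * ε := by ring
  have e5 : |p'| ≤ |p| + |p' - p| := by
    have := abs_add_le p (p' - p)
    rwa [add_sub_cancel] at this
  linarith

/-- planes near the support are in the chart, with coordinates at most `2K` -/
theorem near_chart {ε K : ℝ} (hε : 0 < ε) (hK : 10 ^ 10 ≤ K) (hh : 10 ^ 60 * K ^ 40 * ε ^ 2 ≤ 1)
    {T T' : M4} (hT : T ∈ Gr 4 2) (hs : InSupp ε K T)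
    (hnear : fsq (T' - T) ≤ (10 ^ 4 * ε) ^ 2) :
    1 / 2 < (blk11 T').det ∧ |cu (Xof T') / ε| ≤ 2 * K ∧ |cy (Xof T') / ε| ≤ 2 * K ∧
      |cw (Xof T') / ε| ≤ 2 * K ∧ |cz (Xof T') / ε| ≤ 2 * K := by
  have hdT : (blk11 T).det ≠ 0 := ne_of_gt (by linarith [hs.1])
  have hX := fsq_X_le hε hK hh hs
  have hX' : fsq (Xof T) ≤ (1 / 10 ^ 25) ^ 2 := hX.trans (le_of_eq (by norm_num))
  have hXe : ∀ i j, |Xof T i j| ≤ 1 / 10 ^ 25 := fun i j => abs_entry_le (by positivity) hX' i j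
  obtain ⟨n00, n01, n10, n11⟩ := blk_near_one hT hdT (by positivity) hX'
  have hε1 : 10 ^ 4 * ε ≤ 1 / 10 ^ 20 := by
    have h1 := Keps_le hK hh
    have h2 : 10 ^ 10 * ε ≤ K * ε := mul_le_mul_of_nonneg_right hK hε.le
    have h3 : (1 : ℝ) / 10 ^ 30 ≤ 1 / 10 ^ 20 := by norm_num
    linarith
  set r := 10 ^ 4 * ε with hr
  have hr0 : 0 ≤ r := by positivity
  have hd : ∀ i j, |T' i j - T i j| ≤ r := fun i j => by
    have := abs_entry_le hr0 hnear i j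
    rwa [Matrix.sub_apply] at this
  have hb : ∀ {p p' c : ℝ}, |p - c| ≤ 3 * (1 / 10 ^ 25) → |p' - p| ≤ r → |p' - c| ≤ 1 / 100 := by
    intro p p' c h1 h2
    have e1 := abs_le.1 h1
    have e2 := abs_le.1 h2
    have e3 : 3 * (1 / 10 ^ 25) + (1 : ℝ) / 10 ^ 20 ≤ 1 / 100 := by norm_num
    rw [abs_le]; constructor <;> linarith [e1.1, e1.2, e2.1, e2.2]
  have k00 := hb n00 (hd 0 0)
  have k11 := hb n11 (hd 1 1)
  have k01 : |T' 0 1| ≤ 1 / 100 := by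
    have := hb (c := 0) (by rw [sub_zero]; exact n01) (hd 0 1)
    rwa [sub_zero] at this
  have k10 : |T' 1 0| ≤ 1 / 100 := by
    have := hb (c := 0) (by rw [sub_zero]; exact n10) (hd 1 0)
    rwa [sub_zero] at this
  have hdet : 1 / 2 < (blk11 T').det := by
    rw [det_blk11_eq]
    have l00 := abs_le.1 k00
    have l11 := abs_le.1 k11
    have e1 : (99 / 100) * (99 / 100) ≤ T' 0 0 * T' 1 1 :=
      mul_le_mul (by linarith [l00.1]) (by linarith [l11.1]) (by norm_num) (by linarith [l00.1])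
    have e2 : |T' 0 1 * T' 1 0| ≤ 1 / 100 * (1 / 100) := by
      rw [abs_mul]; exact mul_le_mul k01 k10 (abs_nonneg _) (by norm_num)
    have e3 := (abs_le.1 e2).2
    linarith
  refine ⟨hdet, ?_⟩
  have hdT' : (blk11 T').det ≠ 0 := ne_of_gt (by linarith)
  obtain ⟨⟨a1, a2⟩, ⟨a3, a4⟩⟩ := Xof_mul_entries hdT
  obtain ⟨⟨b1, b2⟩, ⟨b3, b4⟩⟩ := Xof_mul_entries hdT'
  have hsm : (1 : ℝ) / 10 ^ 25 ≤ 1 / 100 := by norm_num
  obtain ⟨r0, r1⟩ := row_near (b := 1 / 100) le_rfl hr0 hsm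
    a1 a2 b1 b2 (hXe 0 0) (hXe 0 1) (hd 0 0) (hd 0 1) (hd 1 0) (hd 1 1) (hd 2 0) (hd 2 1)
    k00 k01 k10 k11
  obtain ⟨r2, r3⟩ := row_near (b := 1 / 100) le_rfl hr0 hsm
    a3 a4 b3 b4 (hXe 1 0) (hXe 1 1) (hd 0 0) (hd 0 1) (hd 1 0) (hd 1 1) (hd 3 0) (hd 3 1)
    k00 k01 k10 k11
  obtain ⟨c1, c2, c3, c4⟩ := supp_coord hK hs
  have fin : ∀ {p p' : ℝ}, |p / ε| ≤ K + 2 → |p' - p| ≤ 3 * r → |p' / ε| ≤ 2 * K :=
    fun h1 h2 => coord_near hε hK h1 h2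
  have half : ∀ {p q : ℝ}, |p| ≤ 3 * r → |q| ≤ 3 * r → |(p + q) / 2| ≤ 3 * r := by
    intro p q hp hq
    have e1 := abs_le.1 hp
    have e2 := abs_le.1 hq
    rw [abs_le]; constructor <;> linarith [e1.1, e1.2, e2.1, e2.2]
  have half' : ∀ {p q : ℝ}, |p| ≤ 3 * r → |q| ≤ 3 * r → |(p - q) / 2| ≤ 3 * r := by
    intro p q hp hq
    have e1 := abs_le.1 hp
    have e2 := abs_le.1 hq
    rw [abs_le]; constructor <;> linarith [e1.1, e1.2, e2.1, e2.2]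
  refine ⟨fin c1 ?_, fin c2 ?_, fin c3 ?_, fin c4 ?_⟩
  · have := half r0 r3
    rw [show cu (Xof T') - cu (Xof T) = ((Xof T' 0 0 - Xof T 0 0) + (Xof T' 1 1 - Xof T 1 1)) / 2 by
      unfold cu; ring]
    exact this
  · have := half r1 r2
    rw [show cy (Xof T') - cy (Xof T) = ((Xof T' 0 1 - Xof T 0 1) + (Xof T' 1 0 - Xof T 1 0)) / 2 by
      unfold cy; ring]
    exact this
  · have := half' r0 r3
    rw [show cw (Xof T') - cw (Xof T) = ((Xof T' 0 0 - Xof T 0 0) - (Xof T' 1 1 - Xof T 1 1)) / 2 by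
      unfold cw; ring]
    exact this
  · have := half' r1 r2
    rw [show cz (Xof T') - cz (Xof T) = ((Xof T' 0 1 - Xof T 0 1) - (Xof T' 1 0 - Xof T 1 0)) / 2 by
      unfold cz; ring]
    exact this

/-- pairs in the chart -/
theorem cert_chart {ε K : ℝ} (hε : 0 < ε)
    (hKab : ∀ u y w z u' y' w' z' : ℝ, |u| ≤ 2 * K → |y| ≤ 2 * K → |w| ≤ 2 * K → |z| ≤ 2 * K →
      |u'| ≤ 2 * K → |y'| ≤ 2 * K → |w'| ≤ 2 * K → |z'| ≤ 2 * K →
      ¬ (u' = u ∧ y' = y ∧ w' = w ∧ z' = z) →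
      ¬ (u = 0 ∧ y = 0 ∧ w = 0 ∧ z = 0 ∧ u' = 1 ∧ y' = 2 * ε ^ 2 ∧ w' = 0 ∧ z' = 0) →
      0 < Kab (ε ^ 2) K u y w z u' y' w' z')
    {T T' : M4} (hT : T ∈ Gr 4 2) (hT' : T' ∈ Gr 4 2) (hne : T' ≠ T)
    (h01 : ¬ (T = T0 ∧ T' = T1 ε))
    (hd : 1 / 2 < (blk11 T).det) (hc : |cu (Xof T) / ε| ≤ 2 * K ∧ |cy (Xof T) / ε| ≤ 2 * K ∧
      |cw (Xof T) / ε| ≤ 2 * K ∧ |cz (Xof T) / ε| ≤ 2 * K)
    (hd' : 1 / 2 < (blk11 T').det) (hc' : |cu (Xof T') / ε| ≤ 2 * K ∧ |cy (Xof T') / ε| ≤ 2 * K ∧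
      |cw (Xof T') / ε| ≤ 2 * K ∧ |cz (Xof T') / ε| ≤ 2 * K) :
    0 < trace (Zof ε K T * Aof ε K T') := by
  rw [trace_Zof_chart hε hT hT' hd hd']
  have hP := eq_Pm_of_mem_Gr hT (ne_of_gt (by linarith))
  have hP' := eq_Pm_of_mem_Gr hT' (ne_of_gt (by linarith))
  refine mul_pos (by positivity) ?_
  refine hKab _ _ _ _ _ _ _ _ hc.1 hc.2.1 hc.2.2.1 hc.2.2.2 hc'.1 hc'.2.1 hc'.2.2.1
    hc'.2.2.2 ?_ ?_
  · rintro ⟨e1, e2, e3, e4⟩
    apply hne
    rw [hP', hP]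
    congr 1
    rw [X_eq hε (Xof T'), e1, e2, e3, e4, ← X_eq hε (Xof T)]
  · rintro ⟨e1, e2, e3, e4, e5, e6, e7, e8⟩
    apply h01
    constructor
    · rw [hP, T0]
      congr 1
      rw [X_eq hε (Xof T), e1, e2, e3, e4, smul_mat]
      ext i j
      fin_cases i <;> fin_cases j <;> simp [mat]
    · rw [hP', T1]
      congr 1
      rw [X_eq hε (Xof T'), e5, e6, e7, e8, smul_mat]
      congr 1 <;> ring

end AP

open AP in
/-- positivity of the certificates for all pairs, from the positivity `Kab_pos` of the kernel in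
the box -/
theorem cert_pos_of_Kab {ε K : ℝ} (hε : 0 < ε) (hK : 10 ^ 10 ≤ K)
    (hh : 10 ^ 60 * K ^ 40 * ε ^ 2 ≤ 1)
    (hKab : ∀ u y w z u' y' w' z' : ℝ, |u| ≤ 2 * K → |y| ≤ 2 * K → |w| ≤ 2 * K → |z| ≤ 2 * K →
      |u'| ≤ 2 * K → |y'| ≤ 2 * K → |w'| ≤ 2 * K → |z'| ≤ 2 * K →
      ¬ (u' = u ∧ y' = y ∧ w' = w ∧ z' = z) →
      ¬ (u = 0 ∧ y = 0 ∧ w = 0 ∧ z = 0 ∧ u' = 1 ∧ y' = 2 * ε ^ 2 ∧ w' = 0 ∧ z' = 0) →
      0 < Kab (ε ^ 2) K u y w z u' y' w' z')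
    {T T' : M4} (hT : T ∈ Gr 4 2) (hT' : T' ∈ Gr 4 2) (hne : T' ≠ T)
    (h01 : ¬ (T = T0 ∧ T' = T1 ε)) : 0 < trace (Zof ε K T * Aof ε K T') := by
  rcases le_or_gt ((10 ^ 4 * ε) ^ 2) (fsq (T' - T)) with hfar | hnear
  · exact cert_far hε hK hh hT hT' hfar
  · have hKK : K + 2 ≤ 2 * K := by linarith
    by_cases hs : InSupp ε K T
    · obtain ⟨c1, c2, c3, c4⟩ := supp_coord hK hs
      obtain ⟨d, hc⟩ := near_chart hε hK hh hT hs hnear.le
      exact cert_chart hε hKab hT hT' hne h01 hs.1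
        ⟨c1.trans hKK, c2.trans hKK, c3.trans hKK, c4.trans hKK⟩ d hc
    · by_cases hs' : InSupp ε K T'
      · obtain ⟨c1, c2, c3, c4⟩ := supp_coord hK hs'
        have hnear' : fsq (T - T') ≤ (10 ^ 4 * ε) ^ 2 := by
          rw [← fsq_neg, neg_sub]; exact hnear.le
        obtain ⟨d, hc⟩ := near_chart hε hK hh hT' hs' hnear'
        exact cert_chart hε hKab hT hT' hne h01 d hc hs'.1
          ⟨c1.trans hKK, c2.trans hKK, c3.trans hKK, c4.trans hKK⟩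
      · rw [Zof_not_supp hs, Aof_not_supp hs, Aof_not_supp hs', Gr_trace_mul hT hT']
        have h0 := fsq_nonneg (T' - T)
        rcases h0.lt_or_eq with h1 | h1
        · linarith
        · exfalso
          apply hne
          ext i j
          have h2 := entry_sq_le_fsq (T' - T) i j
          rw [← h1] at h2
          have h3 : (T' - T) i j = 0 := by
            have := le_antisymm h2 (sq_nonneg _)
            exact pow_eq_zero_iff (by norm_num) |>.1 this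
          rw [Matrix.sub_apply] at h3
          linarith

end EC
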