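import Mathlib
import Pool.Agent.Helper35.EC.Zone

/-!
# MP_0db605_an, piece EC-Z4 : the error E5
-/

namespace EC

namespace Z4

/-- common hypotheses of the estimates: `(a,b,c,d)` increment, `q` cutoff vector, `M` the budget -/
structure Ctx (h K m a b c d S M Q Q' q1 q2 q3 q4 r3 r4 : ℝ) : Prop where
  hK : 10 ^ 15 ≤ K
  h0 : 0 < h
  hh : 10 ^ 60 * (h * K ^ 4) ≤ 1
  hm0 : 0 ≤ m
  hm : m ≤ 4
  hS : 0 ≤ S
  hSM : S ≤ M
  hz : c ^ 2 + d ^ 2 ≤ M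
  hq1 : |q1| ≤ 2 * K
  hq2 : |q2| ≤ |Q'| + 9
  hq2K : |q2| ≤ 5 * K
  hq2y : q2 ^ 2 * (a ^ 2 + b ^ 2 + c ^ 2 + d ^ 2) ≤ K ^ 2 * M
  hq3y : q3 ^ 2 * (a ^ 2 + b ^ 2 + c ^ 2 + d ^ 2) ≤ K ^ 2 * M
  hq4y : q4 ^ 2 * (a ^ 2 + b ^ 2 + c ^ 2 + d ^ 2) ≤ K ^ 2 * M
  hr3y : r3 ^ 2 * (a ^ 2 + b ^ 2 + c ^ 2 + d ^ 2) ≤ K ^ 2 * M
  hr4y : r4 ^ 2 * (a ^ 2 + b ^ 2 + c ^ 2 + d ^ 2) ≤ K ^ 2 * M
  HU : q1 ≠ 0 → a ^ 2 + b ^ 2 ≤ 10 ^ 3 * S
  HV : q2 ≠ 0 → b ^ 2 + h * (a ^ 2 * (1 + Q ^ 2 + Q' ^ 2)) ≤ 10 ^ 5 * S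

section

variable {h K m a b c d S M Q Q' q1 q2 q3 q4 r3 r4 : ℝ}

theorem Ctx.K1 (H : Ctx h K m a b c d S M Q Q' q1 q2 q3 q4 r3 r4) : 1 ≤ K :=
  le_trans (by norm_num) H.hK

theorem Ctx.M0 (H : Ctx h K m a b c d S M Q Q' q1 q2 q3 q4 r3 r4) : 0 ≤ M := H.hS.trans H.hSM

theorem Ctx.MK (H : Ctx h K m a b c d S M Q Q' q1 q2 q3 q4 r3 r4) : M ≤ K ^ 2 * M := by
  have h1 : 1 ≤ K ^ 2 := one_le_pow₀ H.K1
  nlinarith [H.M0]

theorem Ctx.KK (H : Ctx h K m a b c d S M Q Q' q1 q2 q3 q4 r3 r4) : K * M ≤ K ^ 2 * M := by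
  have h1 : K ≤ K ^ 2 := by nlinarith [H.K1]
  exact mul_le_mul_of_nonneg_right h1 H.M0

/-- `q1 ≠ 0` -/
theorem Ctx.y_le (H : Ctx h K m a b c d S M Q Q' q1 q2 q3 q4 r3 r4) (hq : q1 ≠ 0) :
    a ^ 2 + b ^ 2 + c ^ 2 + d ^ 2 ≤ 1001 * M := by
  have := H.HU hq
  have := H.hSM
  have := H.hz
  linarith

/-- `q2 ≠ 0` -/
theorem Ctx.b_le (H : Ctx h K m a b c d S M Q Q' q1 q2 q3 q4 r3 r4) (hq : q2 ≠ 0) :
    b ^ 2 ≤ 10 ^ 5 * M := by
  have h1 := H.HV hq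
  have h2 := H.hSM
  have h3 : 0 ≤ h * (a ^ 2 * (1 + Q ^ 2 + Q' ^ 2)) :=
    mul_nonneg H.h0.le (mul_nonneg (sq_nonneg _) (by positivity))
  linarith

theorem Ctx.ha_le (H : Ctx h K m a b c d S M Q Q' q1 q2 q3 q4 r3 r4) (hq : q2 ≠ 0) :
    h * (a ^ 2 * (1 + Q ^ 2 + Q' ^ 2)) ≤ 10 ^ 5 * M := by
  have h1 := H.HV hq
  have h2 := H.hSM
  have h3 := sq_nonneg b
  linarith

theorem Ctx.ha_le' (H : Ctx h K m a b c d S M Q Q' q1 q2 q3 q4 r3 r4) (hq : q2 ≠ 0) :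
    h * a ^ 2 ≤ 10 ^ 5 * M := by
  refine le_trans ?_ (H.ha_le hq)
  apply mul_le_mul_of_nonneg_left _ H.h0.le
  have : 0 ≤ a ^ 2 * (Q ^ 2 + Q' ^ 2) := by positivity
  nlinarith

end

/-- the `ℓ¹`-norm -/
noncomputable def s1 (a b c d : ℝ) : ℝ := |a| + |b| + |c| + |d|

theorem s1_nonneg (a b c d : ℝ) : 0 ≤ s1 a b c d := by unfold s1; positivity

theorem s1_sq (a b c d : ℝ) : s1 a b c d ^ 2 ≤ 4 * (a ^ 2 + b ^ 2 + c ^ 2 + d ^ 2) := by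
  unfold s1
  have h1 := sq_nonneg (|a| - |b|)
  have h2 := sq_nonneg (|a| - |c|)
  have h3 := sq_nonneg (|a| - |d|)
  have h4 := sq_nonneg (|b| - |c|)
  have h5 := sq_nonneg (|b| - |d|)
  have h6 := sq_nonneg (|c| - |d|)
  have ea := sq_abs a
  have eb := sq_abs b
  have ec := sq_abs c
  have ed := sq_abs d
  nlinarith

/-- products with a component whose square times `|Y|²` is controlled -/
theorem prod_le {s x q y2 A B : ℝ} (hs2 : s ^ 2 ≤ 4 * y2)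
    (hq : q ^ 2 * y2 ≤ A) (hx2 : x ^ 2 ≤ B) : s * (|x| * |q|) ≤ 2 * A + B / 2 := by
  have h1 : s * (|x| * |q|) ≤ ((s * |q|) ^ 2 + |x| ^ 2) / 2 := by
    nlinarith [sq_nonneg (s * |q| - |x|)]
  have h2 : (s * |q|) ^ 2 ≤ 4 * A := by
    have : (s * |q|) ^ 2 = s ^ 2 * q ^ 2 := by rw [mul_pow, sq_abs]
    rw [this]
    calc s ^ 2 * q ^ 2 ≤ 4 * y2 * q ^ 2 := mul_le_mul_of_nonneg_right hs2 (sq_nonneg _)
      _ = 4 * (q ^ 2 * y2) := by ring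
      _ ≤ 4 * A := by linarith
  rw [sq_abs] at h1
  linarith

/-- product with the first component -/
theorem prod_le1 {s x q y2 M K : ℝ} (hs : 0 ≤ s) (hs2 : s ^ 2 ≤ 4 * y2) (hK : 0 ≤ K) (hM : 0 ≤ M)
    (hx : |x| ≤ s) (hq : |q| ≤ 2 * K) (hy : q ≠ 0 → y2 ≤ 1001 * M) :
    s * (|x| * |q|) ≤ 8008 * (K * M) := by
  by_cases h0 : q = 0
  · rw [h0, abs_zero, mul_zero, mul_zero]; positivity
  · have h1 : s * |x| ≤ 4004 * M := by
      have : s * |x| ≤ s ^ 2 := by nlinarith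
      linarith [hy h0]
    calc s * (|x| * |q|) = (s * |x|) * |q| := by ring
      _ ≤ (4004 * M) * (2 * K) := mul_le_mul h1 hq (abs_nonneg _) (by positivity)
      _ = 8008 * (K * M) := by ring

section

variable {h K m a b c d S M Q Q' q1 q2 q3 q4 r3 r4 : ℝ}

/-- `(F1)` -/
theorem F1 (H : Ctx h K m a b c d S M Q Q' q1 q2 q3 q4 r3 r4) :
    s1 a b c d * (|a| * |q1| + |b| * |q2| + |c| * |q3| + |d| * |q4|) ≤ 10 ^ 5 * (K ^ 2 * M) := by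
  have hs := s1_nonneg a b c d
  have hs2 := s1_sq a b c d
  have hM := H.M0
  have hK0 : 0 ≤ K := by linarith [H.K1]
  have hax : |a| ≤ s1 a b c d := by
    unfold s1; linarith [abs_nonneg b, abs_nonneg c, abs_nonneg d]
  have t1 := prod_le1 hs hs2 hK0 hM hax H.hq1 (fun h => H.y_le h)
  have t2 : s1 a b c d * (|b| * |q2|) ≤ 2 * (K ^ 2 * M) + 10 ^ 5 * M / 2 := by
    by_cases h0 : q2 = 0
    · rw [h0, abs_zero, mul_zero, mul_zero]; positivity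
    · exact prod_le hs2 H.hq2y (H.b_le h0)
  have hc : c ^ 2 ≤ M := by linarith [H.hz, sq_nonneg d]
  have hd : d ^ 2 ≤ M := by linarith [H.hz, sq_nonneg c]
  have t3 := prod_le (x := c) hs2 H.hq3y hc
  have t4 := prod_le (x := d) hs2 H.hq4y hd
  have k1 := H.MK
  have k2 := H.KK
  have hKK : 10 ^ 15 * (K * M) ≤ K ^ 2 * M := by
    have := mul_le_mul_of_nonneg_right H.hK (mul_nonneg hK0 hM)
    nlinarith
  have e : s1 a b c d * (|a| * |q1| + |b| * |q2| + |c| * |q3| + |d| * |q4|)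
      = s1 a b c d * (|a| * |q1|) + s1 a b c d * (|b| * |q2|) + s1 a b c d * (|c| * |q3|)
        + s1 a b c d * (|d| * |q4|) := by ring
  rw [e]
  linarith

/-- `(F2)` -/
theorem F2 (H : Ctx h K m a b c d S M Q Q' q1 q2 q3 q4 r3 r4) :
    h * (s1 a b c d * (|b| * |q1| + |a| * |q2| + |d| * |q3| + |c| * |q4|)) ≤ 10 ^ 5 * M := by
  have hs := s1_nonneg a b c d
  have hs2 := s1_sq a b c d
  have hM := H.M0
  have hK0 : 0 ≤ K := by linarith [H.K1]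
  have h0' := H.h0.le
  have hbx : |b| ≤ s1 a b c d := by
    unfold s1; linarith [abs_nonneg a, abs_nonneg c, abs_nonneg d]
  have t1 := prod_le1 hs hs2 hK0 hM hbx H.hq1 (fun h => H.y_le h)
  -- `h K² M` is tiny
  have hhK : 10 ^ 50 * (h * (K ^ 2 * M)) ≤ M := by
    have h1 : 10 ^ 50 * (h * K ^ 2) ≤ 1 := by
      have h2 : K ^ 2 ≤ K ^ 4 := pow_le_pow_right₀ H.K1 (by norm_num)
      have h3 : h * K ^ 2 ≤ h * K ^ 4 := mul_le_mul_of_nonneg_left h2 h0'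
      have h4 : 0 ≤ h * K ^ 4 := by positivity
      linarith [H.hh]
    have := mul_le_mul_of_nonneg_right h1 hM
    linarith
  have t2 : h * (s1 a b c d * (|a| * |q2|)) ≤ 2 * (h * (K ^ 2 * M)) + 10 ^ 5 * M / 2 := by
    by_cases h0 : q2 = 0
    · rw [h0, abs_zero, mul_zero, mul_zero, mul_zero]; positivity
    · have h1 := prod_le (x := a) hs2 H.hq2y (le_refl (a ^ 2))
      have h2 := mul_le_mul_of_nonneg_left h1 h0'
      have h3 := H.ha_le' h0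
      calc h * (s1 a b c d * (|a| * |q2|)) ≤ h * (2 * (K ^ 2 * M) + a ^ 2 / 2) := h2
        _ = 2 * (h * (K ^ 2 * M)) + (h * a ^ 2) / 2 := by ring
        _ ≤ _ := by linarith
  have hc : c ^ 2 ≤ M := by linarith [H.hz, sq_nonneg d]
  have hd : d ^ 2 ≤ M := by linarith [H.hz, sq_nonneg c]
  have t3 := prod_le (x := d) hs2 H.hq3y hd
  have t4 := prod_le (x := c) hs2 H.hq4y hc
  have k1 := H.MK
  have k2 := H.KK
  have t134 : s1 a b c d * (|b| * |q1|) + s1 a b c d * (|d| * |q3|) + s1 a b c d * (|c| * |q4|)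
      ≤ 10 ^ 4 * (K ^ 2 * M) := by linarith
  have t134' := mul_le_mul_of_nonneg_left t134 h0'
  have e : h * (s1 a b c d * (|b| * |q1| + |a| * |q2| + |d| * |q3| + |c| * |q4|))
      = h * (s1 a b c d * (|b| * |q1|) + s1 a b c d * (|d| * |q3|) + s1 a b c d * (|c| * |q4|))
        + h * (s1 a b c d * (|a| * |q2|)) := by ring
  rw [e]
  linarith

/-- products of the first component -/
theorem F3 (H : Ctx h K m a b c d S M Q Q' q1 q2 q3 q4 r3 r4) {g : ℝ} (hg : |g| ≤ 5 * K) :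
    (a ^ 2 + b ^ 2 + c ^ 2 + d ^ 2) * (|g| * |q1|) ≤ 10 ^ 5 * (K ^ 2 * M) := by
  have hM := H.M0
  have hK0 : 0 ≤ K := by linarith [H.K1]
  by_cases h0 : q1 = 0
  · rw [h0, abs_zero, mul_zero, mul_zero]; positivity
  · have h1 := H.y_le h0
    have h2 : |g| * |q1| ≤ 10 * K ^ 2 := by
      calc |g| * |q1| ≤ (5 * K) * (2 * K) := mul_le_mul hg H.hq1 (abs_nonneg _) (by positivity)
        _ = 10 * K ^ 2 := by ring
    calc (a ^ 2 + b ^ 2 + c ^ 2 + d ^ 2) * (|g| * |q1|) ≤ (1001 * M) * (10 * K ^ 2) :=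
          mul_le_mul h1 h2 (by positivity) (by positivity)
      _ = 10010 * (K ^ 2 * M) := by ring
      _ ≤ 10 ^ 5 * (K ^ 2 * M) := by
          apply mul_le_mul_of_nonneg_right (by norm_num) (by positivity)

/-- products of the last components -/
theorem F4 {y2 A x r q g : ℝ} (hy : 0 ≤ y2) (hr : r ^ 2 * y2 ≤ A) (hq : q ^ 2 * y2 ≤ A)
    (hg : |g| ≤ 2 * |r|) (hx : x = |g| * |q|) : y2 * x ≤ 2 * A := by
  have h1 : |g| * |q| ≤ r ^ 2 + q ^ 2 := by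
    have h2 : |g| * |q| ≤ 2 * |r| * |q| := mul_le_mul_of_nonneg_right hg (abs_nonneg _)
    have h3 := sq_nonneg (|r| - |q|)
    have e1 := sq_abs r
    have e2 := sq_abs q
    nlinarith
  rw [hx]
  calc y2 * (|g| * |q|) ≤ y2 * (r ^ 2 + q ^ 2) := mul_le_mul_of_nonneg_left h1 hy
    _ = r ^ 2 * y2 + q ^ 2 * y2 := by ring
    _ ≤ 2 * A := by linarith

/-- products of the second component, small part -/
theorem F5 (H : Ctx h K m a b c d S M Q Q' q1 q2 q3 q4 r3 r4) {g : ℝ} (hg : |g| ≤ 5 * K) :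
    (b ^ 2 + c ^ 2 + d ^ 2) * (|g| * |q2|) ≤ 10 ^ 7 * (K ^ 2 * M) := by
  have hM := H.M0
  have hK0 : 0 ≤ K := by linarith [H.K1]
  by_cases h0 : q2 = 0
  · rw [h0, abs_zero, mul_zero, mul_zero]; positivity
  · have h1 := H.b_le h0
    have h1' : b ^ 2 + c ^ 2 + d ^ 2 ≤ 100001 * M := by linarith [H.hz]
    have h2 : |g| * |q2| ≤ 25 * K ^ 2 := by
      calc |g| * |q2| ≤ (5 * K) * (5 * K) := mul_le_mul hg H.hq2K (abs_nonneg _) (by positivity)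
        _ = 25 * K ^ 2 := by ring
    calc (b ^ 2 + c ^ 2 + d ^ 2) * (|g| * |q2|) ≤ (100001 * M) * (25 * K ^ 2) :=
          mul_le_mul h1' h2 (by positivity) (by positivity)
      _ = 2500025 * (K ^ 2 * M) := by ring
      _ ≤ 10 ^ 7 * (K ^ 2 * M) := by
          apply mul_le_mul_of_nonneg_right (by norm_num) (by positivity)

/-- products of the second component, delicate part -/
theorem F6 (H : Ctx h K m a b c d S M Q Q' q1 q2 q3 q4 r3 r4) {g : ℝ} (hg : |g| ≤ |Q| + 10) :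
    h * (a ^ 2 * (|g| * |q2|)) ≤ 181 * 10 ^ 5 * M := by
  have hM := H.M0
  by_cases h0 : q2 = 0
  · rw [h0, abs_zero, mul_zero, mul_zero, mul_zero]; positivity
  · have h1 := H.ha_le h0
    have h2 : |g| * |q2| ≤ 181 * (1 + Q ^ 2 + Q' ^ 2) := by
      have h3 : |g| * |q2| ≤ (|Q| + 10) * (|Q'| + 9) :=
        mul_le_mul hg H.hq2 (abs_nonneg _) (by positivity)
      have e1 := sq_abs Q
      have e2 := sq_abs Q'
      nlinarith [sq_nonneg (|Q| + 10 - (|Q'| + 9)), sq_nonneg (|Q| - 10), sq_nonneg (|Q'| - 9),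
        sq_nonneg Q, sq_nonneg Q']
    have h4 : a ^ 2 * (|g| * |q2|) ≤ 181 * (a ^ 2 * (1 + Q ^ 2 + Q' ^ 2)) := by
      have := mul_le_mul_of_nonneg_left h2 (sq_nonneg a)
      linarith
    have h5 := mul_le_mul_of_nonneg_left h4 H.h0.le
    have h6 : h * (181 * (a ^ 2 * (1 + Q ^ 2 + Q' ^ 2)))
        = 181 * (h * (a ^ 2 * (1 + Q ^ 2 + Q' ^ 2))) := by ring
    linarith

/-- products of the second component with the first one, in the twisted part -/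
theorem F7 (H : Ctx h K m a b c d S M Q Q' q1 q2 q3 q4 r3 r4) {g : ℝ} (hg : |g| ≤ 5 * K) :
    h * (a ^ 2 * (|g| * |q2|)) ≤ 10 ^ 7 * (K ^ 2 * M) := by
  have hM := H.M0
  have hK0 : 0 ≤ K := by linarith [H.K1]
  by_cases h0 : q2 = 0
  · rw [h0, abs_zero, mul_zero, mul_zero, mul_zero]; positivity
  · have h1 := H.ha_le' h0
    have h2 : |g| * |q2| ≤ 25 * K ^ 2 := by
      calc |g| * |q2| ≤ (5 * K) * (5 * K) := mul_le_mul hg H.hq2K (abs_nonneg _) (by positivity)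
        _ = 25 * K ^ 2 := by ring
    calc h * (a ^ 2 * (|g| * |q2|)) = (h * a ^ 2) * (|g| * |q2|) := by ring
      _ ≤ (10 ^ 5 * M) * (25 * K ^ 2) := mul_le_mul h1 h2 (by positivity) (by positivity)
      _ = 25 * 10 ^ 5 * (K ^ 2 * M) := by ring
      _ ≤ 10 ^ 7 * (K ^ 2 * M) := by
          apply mul_le_mul_of_nonneg_right (by norm_num) (by positivity)

end

/-- dot product against the `ℓ¹`-norm -/
theorem dot_le {a b c d g1 g2 g3 g4 B : ℝ} (h1 : |g1| ≤ B) (h2 : |g2| ≤ B) (h3 : |g3| ≤ B)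
    (h4 : |g4| ≤ B) : |a * g1 + b * g2 + c * g3 + d * g4| ≤ B * s1 a b c d := by
  have t1 : |a * g1| ≤ |a| * B := by rw [abs_mul]; exact mul_le_mul_of_nonneg_left h1 (abs_nonneg _)
  have t2 : |b * g2| ≤ |b| * B := by rw [abs_mul]; exact mul_le_mul_of_nonneg_left h2 (abs_nonneg _)
  have t3 : |c * g3| ≤ |c| * B := by rw [abs_mul]; exact mul_le_mul_of_nonneg_left h3 (abs_nonneg _)
  have t4 : |d * g4| ≤ |d| * B := by rw [abs_mul]; exact mul_le_mul_of_nonneg_left h4 (abs_nonneg _)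
  have k1 := abs_add_le (a * g1 + b * g2 + c * g3) (d * g4)
  have k2 := abs_add_le (a * g1 + b * g2) (c * g3)
  have k3 := abs_add_le (a * g1) (b * g2)
  unfold s1
  linarith

theorem dot_le' (a b c d q1 q2 q3 q4 : ℝ) :
    |a * q1 + b * q2 + c * q3 + d * q4| ≤ |a| * |q1| + |b| * |q2| + |c| * |q3| + |d| * |q4| := by
  have k1 := abs_add_le (a * q1 + b * q2 + c * q3) (d * q4)
  have k2 := abs_add_le (a * q1 + b * q2) (c * q3)
  have k3 := abs_add_le (a * q1) (b * q2)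
  simp only [abs_mul] at k1 k2 k3
  linarith

/-- four terms times `a² - b² - c² + d²` -/
theorem four_le (a b c d x1 x2 x3 x4 : ℝ) :
    |(a ^ 2 - b ^ 2 - c ^ 2 + d ^ 2) * (x1 - x2 - x3 + x4)|
      ≤ (a ^ 2 + b ^ 2 + c ^ 2 + d ^ 2) * |x1|
        + (a ^ 2 * |x2| + (b ^ 2 + c ^ 2 + d ^ 2) * |x2|)
        + (a ^ 2 + b ^ 2 + c ^ 2 + d ^ 2) * |x3| + (a ^ 2 + b ^ 2 + c ^ 2 + d ^ 2) * |x4| := by
  have hδ : |a ^ 2 - b ^ 2 - c ^ 2 + d ^ 2| ≤ a ^ 2 + b ^ 2 + c ^ 2 + d ^ 2 := by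
    rw [abs_le]
    constructor <;> nlinarith [sq_nonneg a, sq_nonneg b, sq_nonneg c, sq_nonneg d]
  have hx : |x1 - x2 - x3 + x4| ≤ |x1| + |x2| + |x3| + |x4| := by
    have k1 := abs_add_le (x1 - x2 - x3) x4
    have k2 := abs_sub (x1 - x2) x3
    have k3 := abs_sub x1 x2
    linarith
  rw [abs_mul]
  calc |a ^ 2 - b ^ 2 - c ^ 2 + d ^ 2| * |x1 - x2 - x3 + x4|
      ≤ (a ^ 2 + b ^ 2 + c ^ 2 + d ^ 2) * (|x1| + |x2| + |x3| + |x4|) :=
        mul_le_mul hδ hx (abs_nonneg _) (by positivity)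
    _ = _ := by ring

section

variable {h K m a b c d S M Q Q' q1 q2 q3 q4 r3 r4 : ℝ}

/-- bound of `h |Bet(g,q)|` -/
theorem betA (H : Ctx h K m a b c d S M Q Q' q1 q2 q3 q4 r3 r4) {g1 g2 g3 g4 : ℝ}
    (hg1 : |g1| ≤ 5 * K) (hg2 : |g2| ≤ |Q| + 10) (hg2K : |g2| ≤ 5 * K)
    (hg3 : |g3| ≤ 2 * |r3|) (hg4 : |g4| ≤ 2 * |r4|) (hg3K : |g3| ≤ 5 * K) (hg4K : |g4| ≤ 5 * K) :
    h * |Bet h m a b c d g1 g2 g3 g4 q1 q2 q3 q4| ≤ 2 * 10 ^ 7 * M := by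
  have hM := H.M0
  have hK0 : 0 ≤ K := by linarith [H.K1]
  have h0' := H.h0.le
  set Y2 := a ^ 2 + b ^ 2 + c ^ 2 + d ^ 2 with hY2
  have hY0 : 0 ≤ Y2 := by rw [hY2]; positivity
  have hs := s1_nonneg a b c d
  have hW := dot_le' a b c d q1 q2 q3 q4
  -- the two dot products
  have p1 : |2 * (a * g1 + b * g2 + c * g3 + d * g4) * (a * q1 + b * q2 + c * q3 + d * q4)|
      ≤ 10 ^ 6 * (K ^ 3 * M) := by
    rw [abs_mul, abs_mul, abs_of_nonneg (show (0 : ℝ) ≤ 2 by norm_num)]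
    have k1 := dot_le (a := a) (b := b) (c := c) (d := d) hg1 hg2K hg3K hg4K
    calc 2 * |a * g1 + b * g2 + c * g3 + d * g4| * |a * q1 + b * q2 + c * q3 + d * q4|
        ≤ 2 * (5 * K * s1 a b c d) * (|a| * |q1| + |b| * |q2| + |c| * |q3| + |d| * |q4|) := by
          apply mul_le_mul _ hW (abs_nonneg _) (by positivity)
          linarith
      _ = 10 * K * (s1 a b c d * (|a| * |q1| + |b| * |q2| + |c| * |q3| + |d| * |q4|)) := by ring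
      _ ≤ 10 * K * (10 ^ 5 * (K ^ 2 * M)) := mul_le_mul_of_nonneg_left (F1 H) (by positivity)
      _ = 10 ^ 6 * (K ^ 3 * M) := by ring
  have p3 : |2 * (b * g1 + a * g2 - d * g3 - c * g4) * (a * q1 + b * q2 + c * q3 + d * q4)|
      ≤ 10 ^ 6 * (K ^ 3 * M) := by
    rw [abs_mul, abs_mul, abs_of_nonneg (show (0 : ℝ) ≤ 2 by norm_num)]
    have k1 : |b * g1 + a * g2 - d * g3 - c * g4| ≤ 5 * K * s1 a b c d := by
      have k2 := dot_le (a := a) (b := b) (c := c) (d := d) (g1 := g2) (g2 := g1) (g3 := -g4)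
        (g4 := -g3) hg2K hg1 (by rwa [abs_neg]) (by rwa [abs_neg])
      have e : b * g1 + a * g2 - d * g3 - c * g4 = a * g2 + b * g1 + c * -g4 + d * -g3 := by ring
      rwa [e]
    calc 2 * |b * g1 + a * g2 - d * g3 - c * g4| * |a * q1 + b * q2 + c * q3 + d * q4|
        ≤ 2 * (5 * K * s1 a b c d) * (|a| * |q1| + |b| * |q2| + |c| * |q3| + |d| * |q4|) := by
          apply mul_le_mul _ hW (abs_nonneg _) (by positivity)
          linarith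
      _ = 10 * K * (s1 a b c d * (|a| * |q1| + |b| * |q2| + |c| * |q3| + |d| * |q4|)) := by ring
      _ ≤ 10 * K * (10 ^ 5 * (K ^ 2 * M)) := mul_le_mul_of_nonneg_left (F1 H) (by positivity)
      _ = 10 ^ 6 * (K ^ 3 * M) := by ring
  -- the Lorentz products
  have p2 := four_le a b c d (g1 * q1) (g2 * q2) (g3 * q3) (g4 * q4)
  have p4 := four_le a b c d (g2 * q1) (g1 * q2) (g3 * q4) (g4 * q3)
  simp only [abs_mul (g1), abs_mul (g2), abs_mul (g3), abs_mul (g4)] at p2 p4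
  rw [← hY2] at p2 p4
  have f11 := F3 H hg1
  have f21 := F3 H hg2K
  rw [← hY2] at f11 f21
  have f33 := F4 (x := |g3| * |q3|) hY0 H.hr3y H.hq3y hg3 rfl
  have f34 := F4 (x := |g3| * |q4|) hY0 H.hr3y H.hq4y hg3 rfl
  have f44 := F4 (x := |g4| * |q4|) hY0 H.hr4y H.hq4y hg4 rfl
  have f43 := F4 (x := |g4| * |q3|) hY0 H.hr4y H.hq3y hg4 rfl
  have f22 := F5 H hg2K
  have f12 := F5 H hg1
  have e22 := F6 H hg2
  have e12 := F7 H hg1
  -- assembling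
  have hA : h * |(a ^ 2 - b ^ 2 - c ^ 2 + d ^ 2) * (g1 * q1 - g2 * q2 - g3 * q3 + g4 * q4)|
      ≤ 181 * 10 ^ 5 * M + 10 ^ 8 * (h * (K ^ 2 * M)) := by
    have k1 : |(a ^ 2 - b ^ 2 - c ^ 2 + d ^ 2) * (g1 * q1 - g2 * q2 - g3 * q3 + g4 * q4)|
        ≤ a ^ 2 * (|g2| * |q2|) + 10 ^ 8 * (K ^ 2 * M) := by
      have : 0 ≤ K ^ 2 * M := by positivity
      linarith
    have k2 := mul_le_mul_of_nonneg_left k1 h0'
    have e : h * (a ^ 2 * (|g2| * |q2|) + 10 ^ 8 * (K ^ 2 * M))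
        = h * (a ^ 2 * (|g2| * |q2|)) + 10 ^ 8 * (h * (K ^ 2 * M)) := by ring
    linarith
  have hB : h * |(a ^ 2 - b ^ 2 - c ^ 2 + d ^ 2) * (g2 * q1 - g1 * q2 - g3 * q4 + g4 * q3)|
      ≤ 10 ^ 7 * (K ^ 2 * M) + 10 ^ 8 * (h * (K ^ 2 * M)) := by
    have k1 : |(a ^ 2 - b ^ 2 - c ^ 2 + d ^ 2) * (g2 * q1 - g1 * q2 - g3 * q4 + g4 * q3)|
        ≤ a ^ 2 * (|g1| * |q2|) + 10 ^ 8 * (K ^ 2 * M) := by
      have : 0 ≤ K ^ 2 * M := by positivity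
      linarith
    have k2 := mul_le_mul_of_nonneg_left k1 h0'
    have e : h * (a ^ 2 * (|g1| * |q2|) + 10 ^ 8 * (K ^ 2 * M))
        = h * (a ^ 2 * (|g1| * |q2|)) + 10 ^ 8 * (h * (K ^ 2 * M)) := by ring
    linarith
  -- tiny numbers
  have tiny3 : 10 ^ 50 * (h * (K ^ 3 * M)) ≤ M := by
    have h1 : 10 ^ 50 * (h * K ^ 3) ≤ 1 := by
      have h2 : K ^ 3 ≤ K ^ 4 := pow_le_pow_right₀ H.K1 (by norm_num)
      have h3 : h * K ^ 3 ≤ h * K ^ 4 := mul_le_mul_of_nonneg_left h2 h0'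
      have h4 : 0 ≤ h * K ^ 4 := by positivity
      linarith [H.hh]
    have := mul_le_mul_of_nonneg_right h1 hM
    linarith
  have tiny2 : 10 ^ 50 * (h * (K ^ 2 * M)) ≤ M := by
    have h1 : h * (K ^ 2 * M) ≤ h * (K ^ 3 * M) := by
      apply mul_le_mul_of_nonneg_left _ h0'
      exact mul_le_mul_of_nonneg_right (pow_le_pow_right₀ H.K1 (by norm_num)) hM
    linarith
  have hh1 : h ≤ 1 := by
    have h1 : 1 ≤ K ^ 4 := one_le_pow₀ H.K1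
    have h3 : h * 1 ≤ h * K ^ 4 := mul_le_mul_of_nonneg_left h1 h0'
    have := H.hh
    linarith
  have eB : Bet h m a b c d g1 g2 g3 g4 q1 q2 q3 q4
      = 2 * (a * g1 + b * g2 + c * g3 + d * g4) * (a * q1 + b * q2 + c * q3 + d * q4)
        - (a ^ 2 - b ^ 2 - c ^ 2 + d ^ 2) * (g1 * q1 - g2 * q2 - g3 * q3 + g4 * q4)
        + h * m * (2 * (b * g1 + a * g2 - d * g3 - c * g4) * (a * q1 + b * q2 + c * q3 + d * q4)
          - (a ^ 2 - b ^ 2 - c ^ 2 + d ^ 2) * (g2 * q1 - g1 * q2 - g3 * q4 + g4 * q3)) := by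
    unfold Bet; ring
  rw [eB]
  generalize 2 * (a * g1 + b * g2 + c * g3 + d * g4) * (a * q1 + b * q2 + c * q3 + d * q4) = X1
    at p1 ⊢
  generalize 2 * (b * g1 + a * g2 - d * g3 - c * g4) * (a * q1 + b * q2 + c * q3 + d * q4) = X3
    at p3 ⊢
  generalize (a ^ 2 - b ^ 2 - c ^ 2 + d ^ 2) * (g1 * q1 - g2 * q2 - g3 * q3 + g4 * q4) = X2
    at hA ⊢
  generalize (a ^ 2 - b ^ 2 - c ^ 2 + d ^ 2) * (g2 * q1 - g1 * q2 - g3 * q4 + g4 * q3) = X4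
    at hB ⊢
  have hmh : |h * m| ≤ 4 * h := by
    rw [abs_of_nonneg (mul_nonneg h0' H.hm0)]
    have := mul_le_mul_of_nonneg_left H.hm h0'
    linarith
  have habs : |X1 - X2 + h * m * (X3 - X4)| ≤ |X1| + |X2| + 4 * h * (|X3| + |X4|) := by
    have k1 := abs_add_le (X1 - X2) (h * m * (X3 - X4))
    have k2 := abs_sub X1 X2
    have k3 := abs_sub X3 X4
    have k4 : |h * m * (X3 - X4)| ≤ 4 * h * (|X3| + |X4|) := by
      rw [abs_mul]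
      exact mul_le_mul hmh k3 (abs_nonneg _) (by positivity)
    linarith
  have q1' := mul_le_mul_of_nonneg_left habs h0'
  have q2' : h * |X1| ≤ 10 ^ 6 * (h * (K ^ 3 * M)) := by
    have := mul_le_mul_of_nonneg_left p1 h0'
    linarith
  have q3' : h * |X3| ≤ 10 ^ 6 * (h * (K ^ 3 * M)) := by
    have := mul_le_mul_of_nonneg_left p3 h0'
    linarith
  have q5 : h * (4 * h * (|X3| + |X4|)) ≤ M := by
    have e : h * (4 * h * (|X3| + |X4|)) = 4 * (h * (h * |X3|)) + 4 * (h * (h * |X4|)) := by ring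
    have k1 : h * (h * |X3|) ≤ 1 * (10 ^ 6 * (h * (K ^ 3 * M))) :=
      mul_le_mul hh1 q3' (by positivity) (by norm_num)
    have k2 : h * (h * |X4|) ≤ h * (10 ^ 7 * (K ^ 2 * M) + 10 ^ 8 * (h * (K ^ 2 * M))) :=
      mul_le_mul_of_nonneg_left hB h0'
    have k3 : h * (10 ^ 8 * (h * (K ^ 2 * M))) ≤ 1 * (10 ^ 8 * (h * (K ^ 2 * M))) :=
      mul_le_mul_of_nonneg_right hh1 (by positivity)
    have k4 : h * (10 ^ 7 * (K ^ 2 * M) + 10 ^ 8 * (h * (K ^ 2 * M)))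
        = 10 ^ 7 * (h * (K ^ 2 * M)) + h * (10 ^ 8 * (h * (K ^ 2 * M))) := by ring
    rw [e]
    linarith
  have e : h * (|X1| + |X2| + 4 * h * (|X3| + |X4|))
      = h * |X1| + h * |X2| + h * (4 * h * (|X3| + |X4|)) := by ring
  linarith

/-- bound of `h |Bet(q,g)|` -/
theorem betB (H : Ctx h K m a b c d S M Q Q' q1 q2 q3 q4 r3 r4) {g1 g2 g3 g4 : ℝ}
    (hg1 : |g1| ≤ 5 * K) (hg2 : |g2| ≤ |Q| + 10) (hg2K : |g2| ≤ 5 * K)
    (hg3 : |g3| ≤ 2 * |r3|) (hg4 : |g4| ≤ 2 * |r4|) (hg3K : |g3| ≤ 5 * K) (hg4K : |g4| ≤ 5 * K) :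
    h * |Bet h m a b c d q1 q2 q3 q4 g1 g2 g3 g4| ≤ 2 * 10 ^ 7 * M := by
  have hM := H.M0
  have hK0 : 0 ≤ K := by linarith [H.K1]
  have h0' := H.h0.le
  set Y2 := a ^ 2 + b ^ 2 + c ^ 2 + d ^ 2 with hY2
  have hY0 : 0 ≤ Y2 := by rw [hY2]; positivity
  have hs := s1_nonneg a b c d
  have hW := dot_le' a b c d q1 q2 q3 q4
  have k0 := dot_le (a := a) (b := b) (c := c) (d := d) hg1 hg2K hg3K hg4K
  -- the two dot products
  have p1 : |2 * (a * q1 + b * q2 + c * q3 + d * q4) * (a * g1 + b * g2 + c * g3 + d * g4)|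
      ≤ 10 ^ 6 * (K ^ 3 * M) := by
    rw [abs_mul, abs_mul, abs_of_nonneg (show (0 : ℝ) ≤ 2 by norm_num)]
    calc 2 * |a * q1 + b * q2 + c * q3 + d * q4| * |a * g1 + b * g2 + c * g3 + d * g4|
        ≤ 2 * (|a| * |q1| + |b| * |q2| + |c| * |q3| + |d| * |q4|) * (5 * K * s1 a b c d) := by
          apply mul_le_mul _ k0 (abs_nonneg _) (by positivity)
          linarith
      _ = 10 * K * (s1 a b c d * (|a| * |q1| + |b| * |q2| + |c| * |q3| + |d| * |q4|)) := by ring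
      _ ≤ 10 * K * (10 ^ 5 * (K ^ 2 * M)) := mul_le_mul_of_nonneg_left (F1 H) (by positivity)
      _ = 10 ^ 6 * (K ^ 3 * M) := by ring
  have p3 : h * |2 * (b * q1 + a * q2 - d * q3 - c * q4) * (a * g1 + b * g2 + c * g3 + d * g4)|
      ≤ 10 ^ 6 * (K * M) := by
    rw [abs_mul, abs_mul, abs_of_nonneg (show (0 : ℝ) ≤ 2 by norm_num)]
    have k1 : |b * q1 + a * q2 - d * q3 - c * q4|
        ≤ |b| * |q1| + |a| * |q2| + |d| * |q3| + |c| * |q4| := by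
      have k2 := dot_le' b a (-d) (-c) q1 q2 q3 q4
      rw [abs_neg, abs_neg] at k2
      have e : b * q1 + a * q2 - d * q3 - c * q4 = b * q1 + a * q2 + -d * q3 + -c * q4 := by ring
      rwa [e]
    have hsum : 0 ≤ |b| * |q1| + |a| * |q2| + |d| * |q3| + |c| * |q4| := by positivity
    calc h * (2 * |b * q1 + a * q2 - d * q3 - c * q4| * |a * g1 + b * g2 + c * g3 + d * g4|)
        ≤ h * (2 * (|b| * |q1| + |a| * |q2| + |d| * |q3| + |c| * |q4|)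
            * (5 * K * s1 a b c d)) := by
          apply mul_le_mul_of_nonneg_left _ h0'
          apply mul_le_mul _ k0 (abs_nonneg _) (by positivity)
          linarith
      _ = 10 * K * (h * (s1 a b c d
            * (|b| * |q1| + |a| * |q2| + |d| * |q3| + |c| * |q4|))) := by ring
      _ ≤ 10 * K * (10 ^ 5 * M) := mul_le_mul_of_nonneg_left (F2 H) (by positivity)
      _ = 10 ^ 6 * (K * M) := by ring
  -- the Lorentz products
  have p2 := four_le a b c d (g1 * q1) (g2 * q2) (g3 * q3) (g4 * q4)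
  have p4 := four_le a b c d (g2 * q1) (g1 * q2) (g3 * q4) (g4 * q3)
  simp only [abs_mul (g1), abs_mul (g2), abs_mul (g3), abs_mul (g4)] at p2 p4
  rw [← hY2] at p2 p4
  have f11 := F3 H hg1
  have f21 := F3 H hg2K
  rw [← hY2] at f11 f21
  have f33 := F4 (x := |g3| * |q3|) hY0 H.hr3y H.hq3y hg3 rfl
  have f34 := F4 (x := |g3| * |q4|) hY0 H.hr3y H.hq4y hg3 rfl
  have f44 := F4 (x := |g4| * |q4|) hY0 H.hr4y H.hq4y hg4 rfl
  have f43 := F4 (x := |g4| * |q3|) hY0 H.hr4y H.hq3y hg4 rfl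
  have f22 := F5 H hg2K
  have f12 := F5 H hg1
  have e22 := F6 H hg2
  have e12 := F7 H hg1
  -- assembling
  have hA : h * |(a ^ 2 - b ^ 2 - c ^ 2 + d ^ 2) * (g1 * q1 - g2 * q2 - g3 * q3 + g4 * q4)|
      ≤ 181 * 10 ^ 5 * M + 10 ^ 8 * (h * (K ^ 2 * M)) := by
    have k1 : |(a ^ 2 - b ^ 2 - c ^ 2 + d ^ 2) * (g1 * q1 - g2 * q2 - g3 * q3 + g4 * q4)|
        ≤ a ^ 2 * (|g2| * |q2|) + 10 ^ 8 * (K ^ 2 * M) := by
      have : 0 ≤ K ^ 2 * M := by positivity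
      linarith
    have k2 := mul_le_mul_of_nonneg_left k1 h0'
    have e : h * (a ^ 2 * (|g2| * |q2|) + 10 ^ 8 * (K ^ 2 * M))
        = h * (a ^ 2 * (|g2| * |q2|)) + 10 ^ 8 * (h * (K ^ 2 * M)) := by ring
    linarith
  have hB : h * |(a ^ 2 - b ^ 2 - c ^ 2 + d ^ 2) * (g2 * q1 - g1 * q2 - g3 * q4 + g4 * q3)|
      ≤ 10 ^ 7 * (K ^ 2 * M) + 10 ^ 8 * (h * (K ^ 2 * M)) := by
    have k1 : |(a ^ 2 - b ^ 2 - c ^ 2 + d ^ 2) * (g2 * q1 - g1 * q2 - g3 * q4 + g4 * q3)|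
        ≤ a ^ 2 * (|g1| * |q2|) + 10 ^ 8 * (K ^ 2 * M) := by
      have : 0 ≤ K ^ 2 * M := by positivity
      linarith
    have k2 := mul_le_mul_of_nonneg_left k1 h0'
    have e : h * (a ^ 2 * (|g1| * |q2|) + 10 ^ 8 * (K ^ 2 * M))
        = h * (a ^ 2 * (|g1| * |q2|)) + 10 ^ 8 * (h * (K ^ 2 * M)) := by ring
    linarith
  -- tiny numbers
  have tiny3 : 10 ^ 50 * (h * (K ^ 3 * M)) ≤ M := by
    have h1 : 10 ^ 50 * (h * K ^ 3) ≤ 1 := by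
      have h2 : K ^ 3 ≤ K ^ 4 := pow_le_pow_right₀ H.K1 (by norm_num)
      have h3 : h * K ^ 3 ≤ h * K ^ 4 := mul_le_mul_of_nonneg_left h2 h0'
      have h4 : 0 ≤ h * K ^ 4 := by positivity
      linarith [H.hh]
    have := mul_le_mul_of_nonneg_right h1 hM
    linarith
  have tiny2 : 10 ^ 50 * (h * (K ^ 2 * M)) ≤ M := by
    have h1 : h * (K ^ 2 * M) ≤ h * (K ^ 3 * M) := by
      apply mul_le_mul_of_nonneg_left _ h0'
      exact mul_le_mul_of_nonneg_right (pow_le_pow_right₀ H.K1 (by norm_num)) hM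
    linarith
  have tiny1 : 10 ^ 50 * (h * (K * M)) ≤ M := by
    have h1 : h * (K * M) ≤ h * (K ^ 2 * M) := mul_le_mul_of_nonneg_left H.KK h0'
    linarith
  have hh1 : h ≤ 1 := by
    have h1 : 1 ≤ K ^ 4 := one_le_pow₀ H.K1
    have h3 : h * 1 ≤ h * K ^ 4 := mul_le_mul_of_nonneg_left h1 h0'
    have := H.hh
    linarith
  have eB : Bet h m a b c d q1 q2 q3 q4 g1 g2 g3 g4
      = 2 * (a * q1 + b * q2 + c * q3 + d * q4) * (a * g1 + b * g2 + c * g3 + d * g4)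
        - (a ^ 2 - b ^ 2 - c ^ 2 + d ^ 2) * (g1 * q1 - g2 * q2 - g3 * q3 + g4 * q4)
        + h * m * (2 * (b * q1 + a * q2 - d * q3 - c * q4) * (a * g1 + b * g2 + c * g3 + d * g4)
          + (a ^ 2 - b ^ 2 - c ^ 2 + d ^ 2) * (g2 * q1 - g1 * q2 - g3 * q4 + g4 * q3)) := by
    unfold Bet; ring
  rw [eB]
  generalize 2 * (a * q1 + b * q2 + c * q3 + d * q4) * (a * g1 + b * g2 + c * g3 + d * g4) = X1
    at p1 ⊢
  generalize 2 * (b * q1 + a * q2 - d * q3 - c * q4) * (a * g1 + b * g2 + c * g3 + d * g4) = X3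
    at p3 ⊢
  generalize (a ^ 2 - b ^ 2 - c ^ 2 + d ^ 2) * (g1 * q1 - g2 * q2 - g3 * q3 + g4 * q4) = X2
    at hA ⊢
  generalize (a ^ 2 - b ^ 2 - c ^ 2 + d ^ 2) * (g2 * q1 - g1 * q2 - g3 * q4 + g4 * q3) = X4
    at hB ⊢
  have hmh : |h * m| ≤ 4 * h := by
    rw [abs_of_nonneg (mul_nonneg h0' H.hm0)]
    have := mul_le_mul_of_nonneg_left H.hm h0'
    linarith
  have habs : |X1 - X2 + h * m * (X3 + X4)| ≤ |X1| + |X2| + 4 * h * (|X3| + |X4|) := by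
    have k1 := abs_add_le (X1 - X2) (h * m * (X3 + X4))
    have k2 := abs_sub X1 X2
    have k3 := abs_add_le X3 X4
    have k4 : |h * m * (X3 + X4)| ≤ 4 * h * (|X3| + |X4|) := by
      rw [abs_mul]
      exact mul_le_mul hmh k3 (abs_nonneg _) (by positivity)
    linarith
  have q1' := mul_le_mul_of_nonneg_left habs h0'
  have q2' : h * |X1| ≤ 10 ^ 6 * (h * (K ^ 3 * M)) := by
    have := mul_le_mul_of_nonneg_left p1 h0'
    linarith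
  have q5 : h * (4 * h * (|X3| + |X4|)) ≤ M := by
    have e : h * (4 * h * (|X3| + |X4|)) = 4 * (h * (h * |X3|)) + 4 * (h * (h * |X4|)) := by ring
    have k1 : h * (h * |X3|) ≤ h * (10 ^ 6 * (K * M)) := mul_le_mul_of_nonneg_left p3 h0'
    have k1' : h * (10 ^ 6 * (K * M)) = 10 ^ 6 * (h * (K * M)) := by ring
    have k2 : h * (h * |X4|) ≤ h * (10 ^ 7 * (K ^ 2 * M) + 10 ^ 8 * (h * (K ^ 2 * M))) :=
      mul_le_mul_of_nonneg_left hB h0'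
    have k3 : h * (10 ^ 8 * (h * (K ^ 2 * M))) ≤ 1 * (10 ^ 8 * (h * (K ^ 2 * M))) :=
      mul_le_mul_of_nonneg_right hh1 (by positivity)
    have k4 : h * (10 ^ 7 * (K ^ 2 * M) + 10 ^ 8 * (h * (K ^ 2 * M)))
        = 10 ^ 7 * (h * (K ^ 2 * M)) + h * (10 ^ 8 * (h * (K ^ 2 * M))) := by ring
    rw [e]
    linarith
  have e : h * (|X1| + |X2| + 4 * h * (|X3| + |X4|))
      = h * |X1| + h * |X2| + h * (4 * h * (|X3| + |X4|)) := by ring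
  linarith

end

end Z4

theorem err5 {h K m a b c d S t t' Q Q' g1 g2 g3 g4 g1' g2' g3' g4' p1 p2 p3 p4 p1' p2' p3' p4' : ℝ}
    (hK : 10 ^ 15 ≤ K) (h0 : 0 < h) (hh : 10 ^ 60 * K ^ 40 * h ≤ 1) (hm0 : 0 ≤ m) (hm : m ≤ 4)
    (hS : 0 ≤ S)
    (ha : |a| ≤ 4 * K) (hb : |b| ≤ 4 * K) (hc : |c| ≤ 4 * K) (hd : |d| ≤ 4 * K)
    (ht : |t| ≤ 160 / K) (ht' : |t'| ≤ 160 / K)
    (hQ : |Q| ≤ 4 * K) (hQ' : |Q'| ≤ 4 * K)
    (hg1 : |g1| ≤ 5 * K) (hg1' : |g1'| ≤ 5 * K) (hg2 : |g2| ≤ |Q| + 10) (hg2' : |g2'| ≤ |Q'| + 10)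
    (hg3 : |g3| ≤ 2 * |p3|) (hg3' : |g3'| ≤ 2 * |p3'|) (hg4 : |g4| ≤ 2 * |p4|)
    (hg4' : |g4'| ≤ 2 * |p4'|)
    (hp1 : |p1| ≤ 2 * K) (hp1' : |p1'| ≤ 2 * K) (hp2 : |p2| ≤ |Q| + 9) (hp2' : |p2'| ≤ |Q'| + 9)
    (hp3 : |p3| ≤ 2 * K) (hp3' : |p3'| ≤ 2 * K) (hp4 : |p4| ≤ 2 * K) (hp4' : |p4'| ≤ 2 * K)
    (HU : p1 ≠ 0 ∨ p1' ≠ 0 → a ^ 2 + b ^ 2 ≤ 10 ^ 3 * S)
    (HV : p2 ≠ 0 ∨ p2' ≠ 0 → b ^ 2 + h * (a ^ 2 * (1 + Q ^ 2 + Q' ^ 2)) ≤ 10 ^ 5 * S) :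
    |h * (t' * Bet h m a b c d g1 g2 g3 g4 p1' p2' p3' p4'
          + t * Bet h m a b c d p1 p2 p3 p4 g1' g2' g3' g4'
          - t * t' * Bet h m a b c d p1 p2 p3 p4 p1' p2' p3' p4')|
      ≤ 1 / 1000 * (S + (c ^ 2 + d ^ 2)
        + (p1 ^ 2 + p2 ^ 2 + p3 ^ 2 + p4 ^ 2 + (p1' ^ 2 + p2' ^ 2 + p3' ^ 2 + p4' ^ 2))
          * (a ^ 2 + b ^ 2 + c ^ 2 + d ^ 2) / K ^ 2) := by
  have hK1 : 1 ≤ K := le_trans (by norm_num) hK
  have hK0 : 0 < K := by linarith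
  have hK10 : 10 ≤ K := le_trans (by norm_num) hK
  have hh4 : 10 ^ 60 * (h * K ^ 4) ≤ 1 := by
    have h1 : K ^ 4 ≤ K ^ 40 := pow_le_pow_right₀ hK1 (by norm_num)
    have h2 := mul_le_mul_of_nonneg_left h1 h0.le
    linarith
  set N := p1 ^ 2 + p2 ^ 2 + p3 ^ 2 + p4 ^ 2 + (p1' ^ 2 + p2' ^ 2 + p3' ^ 2 + p4' ^ 2) with hN
  set Y2 := a ^ 2 + b ^ 2 + c ^ 2 + d ^ 2 with hY2
  have hY0 : 0 ≤ Y2 := by rw [hY2]; positivity
  have hN0 : 0 ≤ N := by rw [hN]; positivity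
  set M := S + (c ^ 2 + d ^ 2) + N * Y2 / K ^ 2 with hM
  have hNY : 0 ≤ N * Y2 / K ^ 2 := by positivity
  have hSM : S ≤ M := by rw [hM]; linarith [sq_nonneg c, sq_nonneg d]
  have hzM : c ^ 2 + d ^ 2 ≤ M := by rw [hM]; linarith
  have hNM : N * Y2 ≤ K ^ 2 * M := by
    have h1 : N * Y2 / K ^ 2 ≤ M := by rw [hM]; linarith [sq_nonneg c, sq_nonneg d]
    rw [div_le_iff₀ (by positivity)] at h1
    linarith
  have hcomp : ∀ x : ℝ, x ^ 2 ≤ N → x ^ 2 * Y2 ≤ K ^ 2 * M := fun x hx =>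
    (mul_le_mul_of_nonneg_right hx hY0).trans hNM
  have e1 := sq_nonneg p1
  have e2 := sq_nonneg p2
  have e3 := sq_nonneg p3
  have e4 := sq_nonneg p4
  have e1' := sq_nonneg p1'
  have e2' := sq_nonneg p2'
  have e3' := sq_nonneg p3'
  have e4' := sq_nonneg p4'
  have n2 := hcomp p2 (by rw [hN]; linarith)
  have n3 := hcomp p3 (by rw [hN]; linarith)
  have n4 := hcomp p4 (by rw [hN]; linarith)
  have n2' := hcomp p2' (by rw [hN]; linarith)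
  have n3' := hcomp p3' (by rw [hN]; linarith)
  have n4' := hcomp p4' (by rw [hN]; linarith)
  clear e1 e2 e3 e4 e1' e2' e3' e4' hcomp
  -- contexts: `q = π'` and `q = π`
  have C1 : Z4.Ctx h K m a b c d S M Q Q' p1' p2' p3' p4' p3 p4 :=
    { hK := hK, h0 := h0, hh := hh4, hm0 := hm0, hm := hm, hS := hS, hSM := hSM, hz := hzM
      hq1 := hp1', hq2 := hp2', hq2K := by linarith, hq2y := n2', hq3y := n3', hq4y := n4'
      hr3y := n3, hr4y := n4, HU := fun h => HU (Or.inr h), HV := fun h => HV (Or.inr h) }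
  have C2 : Z4.Ctx h K m a b c d S M Q' Q p1 p2 p3 p4 p3' p4' :=
    { hK := hK, h0 := h0, hh := hh4, hm0 := hm0, hm := hm, hS := hS, hSM := hSM, hz := hzM
      hq1 := hp1, hq2 := hp2, hq2K := by linarith, hq2y := n2, hq3y := n3, hq4y := n4
      hr3y := n3', hr4y := n4', HU := fun h => HU (Or.inl h)
      HV := fun h => by
        have := HV (Or.inl h)
        have e : 1 + Q' ^ 2 + Q ^ 2 = 1 + Q ^ 2 + Q' ^ 2 := by ring
        rw [e]; exact this }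
  have B1 := Z4.betA C1 hg1 hg2 (by linarith) hg3 hg4 (by linarith) (by linarith)
  have B2 := Z4.betB C2 hg1' hg2' (by linarith) hg3' hg4' (by linarith) (by linarith)
  have B3 := Z4.betA C1 (g1 := p1) (g2 := p2) (g3 := p3) (g4 := p4) (by linarith) (by linarith)
    (by linarith) (by linarith [abs_nonneg p3]) (by linarith [abs_nonneg p4]) (by linarith)
    (by linarith)
  have hM0 : 0 ≤ M := hS.trans hSM
  generalize Bet h m a b c d g1 g2 g3 g4 p1' p2' p3' p4' = X1 at B1 ⊢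
  generalize Bet h m a b c d p1 p2 p3 p4 g1' g2' g3' g4' = X2 at B2 ⊢
  generalize Bet h m a b c d p1 p2 p3 p4 p1' p2' p3' p4' = X3 at B3 ⊢
  have hτ : 160 / K ≤ 1 / 10 ^ 12 := by
    rw [div_le_div_iff₀ hK0 (by norm_num)]
    linarith
  have u1 : |t'| ≤ 1 / 10 ^ 12 := ht'.trans hτ
  have u2 : |t| ≤ 1 / 10 ^ 12 := ht.trans hτ
  have u3 : |t * t'| ≤ 1 / 10 ^ 12 := by
    rw [abs_mul]
    calc |t| * |t'| ≤ (1 / 10 ^ 12) * 1 :=
          mul_le_mul u2 (u1.trans (by norm_num)) (abs_nonneg _) (by norm_num)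
      _ = 1 / 10 ^ 12 := by ring
  have e : h * (t' * X1 + t * X2 - t * t' * X3)
      = t' * (h * X1) + t * (h * X2) - t * t' * (h * X3) := by ring
  rw [e]
  have v : ∀ x X : ℝ, |x| ≤ 1 / 10 ^ 12 → h * |X| ≤ 2 * 10 ^ 7 * M →
      |x * (h * X)| ≤ 1 / 10 ^ 4 * M := by
    intro x X hx hX
    rw [abs_mul, abs_mul, abs_of_pos h0]
    calc |x| * (h * |X|) ≤ (1 / 10 ^ 12) * (2 * 10 ^ 7 * M) :=
          mul_le_mul hx hX (by positivity) (by norm_num)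
      _ ≤ 1 / 10 ^ 4 * M := by linarith
  have w1 := v t' X1 u1 B1
  have w2 := v t X2 u2 B2
  have w3 := v (t * t') X3 u3 B3
  have k1 := abs_sub (t' * (h * X1) + t * (h * X2)) (t * t' * (h * X3))
  have k2 := abs_add_le (t' * (h * X1)) (t * (h * X2))
  linarith

end EC
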